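import Pool.Agent.Lib.H62r.RL5

set_option autoImplicit false

/-!
Last stage with the sharp constant: main term.
-/

open Finset
namespace H62r
open H62w H62y

/-- Range of the starting size of the last walk. -/
theorem v_range' {N L t T0 σ μ : ℕ} (hN : 100 ≤ N) {C Θ V : ℝ} (hU : 0 ≤ V) (ht : t ≤ T0)
    (hσ : |(σ : ℝ) - 2 * L| ≤ (L : ℝ) / N + C) (hμ : |(μ : ℝ) - 2 * (L / N : ℕ)| ≤ ((L / N : ℕ) : ℝ) / 10)
    (h1 : Real.log (4 / 3) * L + 11 / 10 * L / N ≤ Real.log Θ)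
    (h2 : Real.log Θ ≤ Real.log (4 / 3) * L + 19 / 10 * L / N) (hΘ : 0 < Θ)
    (hL : |C| + 2 * T0 + 3 + V ≤ 4 / 100 * ((L : ℝ) / N)) :
    0 < (2 : ℝ) ^ (σ + μ) / 3 ^ (t + L + L / N) ∧
      V ≤ Real.log (Θ / ((2 : ℝ) ^ (σ + μ) / 3 ^ (t + L + L / N))) ∧
      Real.log (Θ / ((2 : ℝ) ^ (σ + μ) / 3 ^ (t + L + L / N))) ≤ ((10 * (L / N) : ℕ) : ℝ) / 4 := by
  have hN0 : (0 : ℝ) < N := by
    have : 0 < N := by omega
    exact_mod_cast this
  have hv : 0 < (2 : ℝ) ^ (σ + μ) / 3 ^ (t + L + L / N) := by positivity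
  set p : ℕ := L / N with hp
  have hp1 : (p : ℝ) ≤ (L : ℝ) / N := Nat.cast_div_le
  have hp2 : (L : ℝ) / N - 1 ≤ p := by
    rw [sub_le_iff_le_add, div_le_iff₀ hN0]
    have h3 : L < (p + 1) * N := by
      rw [hp]
      have := Nat.lt_mul_div_succ L (show 0 < N by omega)
      rw [mul_comm]
      exact this
    have h4 : (L : ℝ) < ((p + 1 : ℕ) : ℝ) * N := by exact_mod_cast h3
    push_cast at h4
    exact h4.le
  have hlv : Real.log ((2 : ℝ) ^ (σ + μ) / 3 ^ (t + L + p)) =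
      (σ + μ) * Real.log 2 - (t + L + p) * Real.log 3 := by
    rw [Real.log_div (by positivity) (by positivity), Real.log_pow, Real.log_pow]
    push_cast
    ring
  have hp0 : (0 : ℝ) ≤ p := Nat.cast_nonneg p
  have ht' : (t : ℝ) ≤ T0 := by exact_mod_cast ht
  have ht0 : (0 : ℝ) ≤ t := Nat.cast_nonneg t
  have hT0 : (0 : ℝ) ≤ T0 := Nat.cast_nonneg T0
  have hL0 : (0 : ℝ) ≤ L := Nat.cast_nonneg L
  obtain ⟨s1, s2⟩ := abs_le.1 hσ
  obtain ⟨u1, u2⟩ := abs_le.1 hμ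
  have x1 := Real.log_two_gt_d9
  have x2 := Real.log_two_lt_d9
  have y1 := log3_gt
  have y2 := log3_lt
  rw [log43] at h1 h2
  have hC1 := le_abs_self C
  have hC0 := abs_nonneg C
  set X := Real.log 2
  set Y := Real.log 3
  set q : ℝ := (L : ℝ) / N with hq
  have e1 : 11 / 10 * (L : ℝ) / N = 11 / 10 * q := by rw [hq]; ring
  have e2 : 19 / 10 * (L : ℝ) / N = 19 / 10 * q := by rw [hq]; ring
  rw [e1] at h1
  rw [e2] at h2
  have hq0 : 0 ≤ q := by positivity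
  have hup : (σ + μ) * X - (t + L + p) * Y + V ≤ (2 * X - Y) * L + 11 / 10 * q := by
    have a1 : (σ + μ) * X ≤ (2 * L + q + |C| + 21 / 10 * p) * X := by
      apply mul_le_mul_of_nonneg_right _ (by linarith)
      linarith
    have a2 : p * (21 / 10 * X - Y) ≤ q * (21 / 10 * X - Y) := mul_le_mul_of_nonneg_right hp1 (by linarith)
    have a3 : |C| * X ≤ |C| := mul_le_of_le_one_right hC0 (by linarith)
    have a4 : q * (4 / 100) ≤ q * (11 / 10 - 31 / 10 * X + Y) := mul_le_mul_of_nonneg_left (by linarith) hq0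
    have a5 : 0 ≤ (t : ℝ) * Y := mul_nonneg ht0 (by linarith)
    linarith
  have hlo : (2 * X - Y) * L - q * X - |C| - 2 * T0 + p * (19 / 10 * X - Y) ≤ (σ + μ) * X - (t + L + p) * Y := by
    have a1 : (2 * L - q - |C| + 19 / 10 * p) * X ≤ (σ + μ) * X := by
      apply mul_le_mul_of_nonneg_right _ (by linarith)
      linarith
    have a3 : |C| * X ≤ |C| := mul_le_of_le_one_right hC0 (by linarith)
    have a5 : (t : ℝ) * Y ≤ t * 2 := mul_le_mul_of_nonneg_left (by linarith) ht0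
    linarith
  refine ⟨hv, ?_, ?_⟩
  · rw [Real.log_div hΘ.ne' hv.ne', hlv]
    linarith
  · rw [Real.log_div hΘ.ne' hv.ne', hlv]
    push_cast
    have a1 : 218 / 1000 * (p : ℝ) ≤ p * (19 / 10 * X - Y) := by
      rw [mul_comm]
      apply mul_le_mul_of_nonneg_left _ hp0
      linarith
    have a2 : q * X ≤ q * (69315 / 100000) := mul_le_mul_of_nonneg_left (by linarith) hq0
    linarith

/-- The cell condition. -/
def cellT (θ Θ : ℝ) (n σ s : ℕ) : Prop :=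
  θ * Θ * 3 ^ n < (2 : ℝ) ^ (σ + s) ∧ (2 : ℝ) ^ (σ + s) ≤ Θ * 3 ^ n

open Classical in
/-- Main term: mass of all continuations in the cells. -/
theorem main_sharp {N M t T0 L y : ℕ} {C B D κ Θ θ cst V : ℝ} {G : Finset (List ℕ)}
    (h : Stage N M t L y C B D κ G) (hU : 0 ≤ V)
    (hN : 100 ≤ N) (hD : 0 ≤ D) (ht : t ≤ T0) (hM : 1 ≤ M)
    (hfp : ∀ v Θ : ℝ, 0 < v → 0 < Θ → V ≤ Real.log (Θ / v) →
      Real.log (Θ / v) ≤ ((10 * (L / N) : ℕ) : ℝ) / 4 →
      cst ≤ ∑ m ∈ range (10 * (L / N) + 1), ∑ l ∈ (words M m).filter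
        (fun l => θ * Θ * 3 ^ m < v * 2 ^ l.sum ∧ v * 2 ^ l.sum ≤ Θ * 3 ^ m), pw M l)
    (hΘ : 0 < Θ) (h1 : Real.log (4 / 3) * L + 11 / 10 * L / N ≤ Real.log Θ)
    (h2 : Real.log Θ ≤ Real.log (4 / 3) * L + 19 / 10 * L / N)
    (hL : |C| + 2 * T0 + 3 + V ≤ 4 / 100 * ((L : ℝ) / N)) (hcst : 0 ≤ cst) :
    cst * (κ - D * (L : ℝ) ^ 3 * ∑ u ∈ (words M (L / N)).filter
        (fun u => ¬ (|(u.sum : ℝ) - 2 * (L / N : ℕ)| ≤ ((L / N : ℕ) : ℝ) / 10)), pw M u) -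
      ∑ m ∈ range (10 * (L / N) + 1), D * (L : ℝ) ^ 3 * ∑ n ∈ Ico (L / N) (L / N + m), tt M (L / N + m) n ≤
    ∑ l ∈ G, om l * ∑ m ∈ range (10 * (L / N) + 1), 3 ^ (L / N + m) *
      ∑ l' ∈ (words M (L / N + m)).filter (fun l' => 2 ^ l'.sum * en l y ≡ cc l' [MOD 3 ^ (L / N + m)] ∧
        cellT θ Θ (t + L + (L / N + m)) l.sum l'.sum), pw M l' := by
  set p : ℕ := L / N with hp
  have hpL : p * 100 ≤ L := by
    rw [hp]
    calc L / N * 100 ≤ L / N * N := Nat.mul_le_mul_left _ hN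
      _ ≤ L := Nat.div_mul_le_self L N
  -- error terms
  have herr : ∑ l ∈ G, om l * ∑ m ∈ range (10 * p + 1), Em M (p + m) p (en l y) ≤
      ∑ m ∈ range (10 * p + 1), D * (L : ℝ) ^ 3 * ∑ n ∈ Ico p (p + m), tt M (p + m) n := by
    have e0 : ∑ l ∈ G, om l * ∑ m ∈ range (10 * p + 1), Em M (p + m) p (en l y) =
        ∑ m ∈ range (10 * p + 1), ∑ l ∈ G, om l * Em M (p + m) p (en l y) := by
      rw [sum_comm]
      exact sum_congr rfl fun l _ => mul_sum _ _ _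
    rw [e0]
    refine sum_le_sum fun m hm => ?_
    rw [mem_range] at hm
    exact Em_sum h hM hD (by omega) (by omega)
  -- pointwise in l
  have hpt : ∀ l ∈ G, cst * (3 ^ p * mu M p (en l y)) - cst * (3 ^ p * ∑ u ∈ (words M p).filter
        (fun u => 2 ^ u.sum * en l y ≡ cc u [MOD 3 ^ p] ∧
          ¬ (|(u.sum : ℝ) - 2 * (p : ℕ)| ≤ ((p : ℕ) : ℝ) / 10)), pw M u) -
      ∑ m ∈ range (10 * p + 1), Em M (p + m) p (en l y) ≤
      ∑ m ∈ range (10 * p + 1), 3 ^ (p + m) *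
      ∑ l' ∈ (words M (p + m)).filter (fun l' => 2 ^ l'.sum * en l y ≡ cc l' [MOD 3 ^ (p + m)] ∧
        cellT θ Θ (t + L + (p + m)) l.sum l'.sum), pw M l' := by
    intro l hl
    have a1 : ∀ m ∈ range (10 * p + 1), 3 ^ p * ∑ u ∈ (words M p).filter
          (fun u => 2 ^ u.sum * en l y ≡ cc u [MOD 3 ^ p]), pw M u *
          ∑ v ∈ (words M m).filter (fun v => cellT θ Θ (t + L + (p + m)) l.sum (u.sum + v.sum)), pw M v -
        Em M (p + m) p (en l y) ≤ 3 ^ (p + m) *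
        ∑ l' ∈ (words M (p + m)).filter (fun l' => 2 ^ l'.sum * en l y ≡ cc l' [MOD 3 ^ (p + m)] ∧
        cellT θ Θ (t + L + (p + m)) l.sum l'.sum), pw M l' := by
      intro m _
      rw [sum_valid_jl M (p + m) (en l y) (cellT θ Θ (t + L + (p + m)) l.sum)]
      have := cell_diff M (p + m) p (en l y) (by omega) (cellT θ Θ (t + L + (p + m)) l.sum)
      rw [cell_split hM] at this
      exact this
    refine le_trans ?_ (sum_le_sum a1)
    rw [sum_sub_distrib]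
    refine sub_le_sub ?_ (le_refl (∑ m ∈ range (10 * p + 1), Em M (p + m) p (en l y)))
    rw [← mul_sum, sum_comm]
    have a2 : cst * (3 ^ p * mu M p (en l y)) - cst * (3 ^ p * ∑ u ∈ (words M p).filter
        (fun u => 2 ^ u.sum * en l y ≡ cc u [MOD 3 ^ p] ∧
          ¬ (|(u.sum : ℝ) - 2 * (p : ℕ)| ≤ ((p : ℕ) : ℝ) / 10)), pw M u) =
        3 ^ p * ∑ u ∈ ((words M p).filter (fun u => 2 ^ u.sum * en l y ≡ cc u [MOD 3 ^ p])).filter
          (fun u => |(u.sum : ℝ) - 2 * (p : ℕ)| ≤ ((p : ℕ) : ℝ) / 10), pw M u * cst := by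
      unfold mu
      rw [← sum_filter_add_sum_filter_not ((words M p).filter (fun u => 2 ^ u.sum * en l y ≡ cc u [MOD 3 ^ p]))
        (fun u => |(u.sum : ℝ) - 2 * (p : ℕ)| ≤ ((p : ℕ) : ℝ) / 10) (fun u => pw M u), ← sum_mul]
      rw [filter_filter, filter_filter]
      ring
    rw [a2]
    apply mul_le_mul_of_nonneg_left _ (by positivity)
    refine le_trans (sum_le_sum (g := fun u => ∑ m ∈ range (10 * p + 1), pw M u *
          ∑ v ∈ (words M m).filter (fun v => cellT θ Θ (t + L + (p + m)) l.sum (u.sum + v.sum)), pw M v) ?_) ?_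
    · intro u hu
      rw [mem_filter, mem_filter] at hu
      rw [← mul_sum]
      apply mul_le_mul_of_nonneg_left _ (L_pw_nonneg M u)
      obtain ⟨v1, v2, v3⟩ := v_range' (T0 := T0) hN hU ht (h.sums l hl) hu.2 h1 h2 hΘ hL
      refine (hfp _ Θ v1 hΘ v2 v3).trans (le_of_eq ?_)
      refine sum_congr rfl fun m _ => sum_congr ?_ fun _ _ => rfl
      ext v
      simp only [mem_filter]
      refine and_congr_right fun _ => ?_
      unfold cellT
      have e1 : (2 : ℝ) ^ (l.sum + (u.sum + v.sum)) = 2 ^ (l.sum + u.sum) * 2 ^ v.sum := by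
        rw [← pow_add]; congr 1; ring
      have e2 : (3 : ℝ) ^ (t + L + (p + m)) = 3 ^ (t + L + p) * 3 ^ m := by
        rw [← pow_add]; congr 1; ring
      have e3 : (0 : ℝ) < 3 ^ (t + L + p) := by positivity
      rw [e1, e2, div_mul_eq_mul_div, lt_div_iff₀ e3, div_le_iff₀ e3]
      constructor
      · rintro ⟨b1, b2⟩
        exact ⟨by linarith, by linarith⟩
      · rintro ⟨b1, b2⟩
        exact ⟨by linarith, by linarith⟩
    · apply sum_le_sum_of_subset_of_nonneg (filter_subset _ _)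
      intro u _ _
      exact sum_nonneg fun m _ => mul_nonneg (L_pw_nonneg M u) (sum_nonneg fun v _ => L_pw_nonneg M v)
  have hsum : ∑ l ∈ G, om l * (cst * (3 ^ p * mu M p (en l y)) - cst * (3 ^ p * ∑ u ∈ (words M p).filter
        (fun u => 2 ^ u.sum * en l y ≡ cc u [MOD 3 ^ p] ∧
          ¬ (|(u.sum : ℝ) - 2 * (p : ℕ)| ≤ ((p : ℕ) : ℝ) / 10)), pw M u) -
      ∑ m ∈ range (10 * p + 1), Em M (p + m) p (en l y)) ≤ _ :=
    sum_le_sum fun l hl => mul_le_mul_of_nonneg_left (hpt l hl) (om_pos l).le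
  refine le_trans ?_ hsum
  have hbad := bad_mass h (r := p) (by omega)
    (fun u => ¬ (|(u.sum : ℝ) - 2 * (p : ℕ)| ≤ ((p : ℕ) : ℝ) / 10))
  have hphi := h.phi
  rw [← hp] at hphi
  have e : ∑ l ∈ G, om l * (cst * (3 ^ p * mu M p (en l y)) - cst * (3 ^ p * ∑ u ∈ (words M p).filter
        (fun u => 2 ^ u.sum * en l y ≡ cc u [MOD 3 ^ p] ∧
          ¬ (|(u.sum : ℝ) - 2 * (p : ℕ)| ≤ ((p : ℕ) : ℝ) / 10)), pw M u) -
      ∑ m ∈ range (10 * p + 1), Em M (p + m) p (en l y)) =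
      cst * ∑ l ∈ G, om l * (3 ^ p * mu M p (en l y)) -
      cst * ∑ l ∈ G, om l * (3 ^ p * ∑ u ∈ (words M p).filter
        (fun u => 2 ^ u.sum * en l y ≡ cc u [MOD 3 ^ p] ∧
          ¬ (|(u.sum : ℝ) - 2 * (p : ℕ)| ≤ ((p : ℕ) : ℝ) / 10)), pw M u) -
      ∑ l ∈ G, om l * ∑ m ∈ range (10 * p + 1), Em M (p + m) p (en l y) := by
    rw [mul_sum, mul_sum, ← sum_sub_distrib, ← sum_sub_distrib]
    refine sum_congr rfl fun l _ => ?_
    ring
  rw [e]
  have w1 := mul_le_mul_of_nonneg_left hphi hcst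
  have w2 := mul_le_mul_of_nonneg_left hbad hcst
  linarith

end H62r
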