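import Pool.Agent.Lib.H62r.LastA

set_option autoImplicit false

/-!
Last stage with the sharp constant.
-/

open Finset
namespace H62r
open H62w H62y

/-- last stage, sharp constant. `hT` is the superpolynomial mixing estimate. -/
theorem last_sharp_of (hT : ∀ A : ℕ, ∃ K : ℝ, ∀ M n : ℕ, 2 * n ≤ M → tt M (n + 1) n ≤ K / ((n : ℝ) + 1) ^ A)
    {N : ℕ} (hN : 100 ≤ N) {C B D κ θ δ : ℝ} (hD : 0 ≤ D)
    (hκ : 0 < κ) (hθ0 : 0 < θ) (hθ1 : θ < 1) (hδ : 0 < δ) (T0 : ℕ) :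
    ∃ L1 : ℕ, ∀ L M t y : ℕ, L1 ≤ L → 2 * L ≤ M → t ≤ T0 → ∀ G : Finset (List ℕ),
      H62y.Stage N M t L y C B D κ G → ∀ Θ : ℝ,
      Real.log (4 / 3) * L + 11 / 10 * L / N ≤ Real.log Θ →
      Real.log Θ ≤ Real.log (4 / 3) * L + 19 / 10 * L / N → 0 < Θ →
      ∃ G' : Finset (List ℕ), (∀ l ∈ G', ∃ l1 ∈ G, ∃ l2 : List ℕ, l = l1 ++ l2 ∧ 8 * l2.length ≤ L ∧
        (∀ a ∈ l2, 1 ≤ a) ∧ va l y ∧ θ * Θ * 3 ^ l.length < (2 : ℝ) ^ l.sum ∧
        (2 : ℝ) ^ l.sum ≤ Θ * 3 ^ l.length) ∧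
        κ * (Real.log (1 / θ) / Real.log (4 / 3) - δ) ≤
          ∑ l ∈ G', (3 : ℝ) ^ l.length / (2 : ℝ) ^ l.sum := by
  classical
  obtain ⟨cst, hcst, hcst1, hcst2⟩ : ∃ cst : ℝ, 0 ≤ cst ∧ Real.log (1 / θ) / Real.log (4 / 3) - δ / 2 ≤ cst ∧
      (cst = 0 ∨ cst = Real.log (1 / θ) / Real.log (4 / 3) - δ / 2) :=
    ⟨max 0 (Real.log (1 / θ) / Real.log (4 / 3) - δ / 2), le_max_left _ _, le_max_right _ _,
      max_choice _ _⟩
  obtain ⟨V, hV0, hVX⟩ : ∃ V : ℝ, 0 ≤ V ∧ ∃ m1 : ℕ, ∀ m2 : ℕ, m1 ≤ m2 → ∀ M : ℕ, 2 * m2 ≤ M →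
      ∀ v Θ : ℝ, 0 < v → 0 < Θ → V ≤ Real.log (Θ / v) → Real.log (Θ / v) ≤ m2 / 4 →
      cst ≤ ∑ m ∈ range (m2 + 1), ∑ l ∈ (words M m).filter
        (fun l => θ * Θ * 3 ^ m < v * 2 ^ l.sum ∧ v * 2 ^ l.sum ≤ Θ * 3 ^ m), pw M l := by
    obtain ⟨m1, X1, hfp⟩ := first_passage_sharp hθ0 hθ1 (show (0 : ℝ) < δ / 2 by positivity)
    refine ⟨max X1 0, le_max_right _ _, m1, fun m2 hm2 M hM v Θ hv hΘ h1 h2 => ?_⟩
    rcases hcst2 with h | h
    · rw [h]
      exact sum_nonneg fun m _ => sum_nonneg fun l _ => L_pw_nonneg M l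
    · rw [h]
      exact hfp m2 hm2 M hM v Θ hv hΘ ((le_max_left _ _).trans h1) h2
  obtain ⟨K8, hK8⟩ := hT 8
  obtain ⟨m1, hfp⟩ := hVX
  obtain ⟨c1, K1, hc1, hK1, hbs⟩ := bad_small 10 (by norm_num)
  obtain ⟨K2, hK2, hcc⟩ := bad_cc
  have hN0 : (0 : ℝ) < N := by
    have : 0 < N := by omega
    exact_mod_cast this
  have E1 : ∀ᶠ L : ℕ in Filter.atTop, m1 ≤ 10 * (L / N) := by
    filter_upwards [Filter.eventually_ge_atTop (m1 * N)] with L hL
    have : m1 ≤ L / N := (Nat.le_div_iff_mul_le (by omega)).2 hL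
    omega
  have hκδ : 0 < κ * δ := by positivity
  have E2 := ev_inv (|C| + 2 * T0 + 3 + V) (show (0 : ℝ) < 4 / 100 / N by positivity)
  have E3 := ev_inv (|C| + 2 * T0) (show (0 : ℝ) < 1 / 10 by norm_num)
  have E4 := ev_exp 3 (cst * (D * K1 * Real.exp c1)) (show (0 : ℝ) < c1 / N by positivity)
    (show (0 : ℝ) < κ * δ / 8 by positivity)
  have E5 := ev_inv (2200 * D * max K8 0 * N ^ 4) hκδ
  have E6 := ev_exp 5 (2 * D) (show (0 : ℝ) < 1 by norm_num) (show (0 : ℝ) < κ * δ / 40 by positivity)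
  have E7 := ev_exp 4 (2 * D * K2) (show (0 : ℝ) < 1 / 25 by norm_num) (show (0 : ℝ) < κ * δ / 40 by positivity)
  have E8 : ∀ᶠ L : ℕ in Filter.atTop, 5 ≤ L := Filter.eventually_ge_atTop 5
  obtain ⟨L1, hL1⟩ := Filter.eventually_atTop.1 (((E1.and E2).and (E3.and E4)).and ((E5.and E6).and (E7.and E8)))
  refine ⟨L1, fun L M t y hL hM ht G h Θ h1 h2 hΘ => ?_⟩
  obtain ⟨⟨⟨e1, e2⟩, ⟨e3, e4⟩⟩, ⟨⟨e5, e6⟩, ⟨e7, e8⟩⟩⟩ := hL1 L hL
  have hL0 : (0 : ℝ) < L := by
    have : 0 < L := by omega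
    exact_mod_cast this
  have hpL : L / N * 100 ≤ L := by
    calc L / N * 100 ≤ L / N * N := Nat.mul_le_mul_left _ hN
      _ ≤ L := Nat.div_mul_le_self L N
  have hp1 : ((L / N : ℕ) : ℝ) ≤ (L : ℝ) / N := Nat.cast_div_le
  have hp2 : (L : ℝ) ≤ ((L / N : ℕ) + 1) * N := by
    have h3 : L < (L / N + 1) * N := by
      have := Nat.lt_mul_div_succ L (show 0 < N by omega)
      rw [mul_comm]
      exact this
    have h4 : (L : ℝ) < ((L / N + 1 : ℕ) : ℝ) * N := by exact_mod_cast h3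
    push_cast at h4
    exact h4.le
  obtain ⟨G', hG', hmass⟩ := mass_image (M := M) (p := L / N) (m2 := 10 * (L / N)) h.len
    (fun l m l' => (2 ^ l'.sum * en l y ≡ cc l' [MOD 3 ^ (L / N + m)] ∧
      cellT θ Θ (t + L + (L / N + m)) l.sum l'.sum) ∧ ((∀ a ∈ l', a < M) ∧ (cc l' : ℝ) ≤ 4 ^ (L / 16) * 2 ^ l'.sum))
    (fun l m l' hh => hh.2.1)
  refine ⟨G', ?_, ?_⟩
  · intro x hx
    obtain ⟨l, hl, m, hm, l', hl', ⟨⟨q1, q2⟩, q3, q4⟩, rfl⟩ := hG' x hx
    have hlen : (l ++ l').length = t + L + (L / N + m) := by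
      rw [List.length_append, h.len l hl, (mem_words.1 hl').1]
    refine ⟨l, hl, l', rfl, ?_, ?_, ?_, ?_, ?_⟩
    · rw [(mem_words.1 hl').1]
      omega
    · intro a ha
      exact ((mem_words.1 hl').2 a ha).1
    · rw [va_append]
      refine ⟨h.val l hl, ?_⟩
      rw [va_iff, (mem_words.1 hl').1]
      exact q1
    · rw [hlen, List.sum_append]
      exact q2.1
    · rw [hlen, List.sum_append]
      exact q2.2
  · rw [hmass]
    have hmain := main_sharp (M := M) (T0 := T0) h hV0 hN hD ht (by omega)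
      (hfp (10 * (L / N)) e1 M (by omega)) hΘ h1 h2 (by
        have : 4 / 100 / (N : ℝ) * L = 4 / 100 * ((L : ℝ) / N) := by ring
        linarith) hcst
    -- the bad part
    have hbad : ∑ l ∈ G, om l * ∑ m ∈ range (10 * (L / N) + 1), 3 ^ (L / N + m) *
        ∑ l' ∈ (words M (L / N + m)).filter (fun l' => 2 ^ l'.sum * en l y ≡ cc l' [MOD 3 ^ (L / N + m)] ∧
        ¬ ((∀ a ∈ l', a < M) ∧ (cc l' : ℝ) ≤ 4 ^ (L / 16) * 2 ^ l'.sum)), pw M l' ≤ κ * δ / 40 + κ * δ / 40 := by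
      have a0 : ∑ l ∈ G, om l * ∑ m ∈ range (10 * (L / N) + 1), 3 ^ (L / N + m) *
          ∑ l' ∈ (words M (L / N + m)).filter (fun l' => 2 ^ l'.sum * en l y ≡ cc l' [MOD 3 ^ (L / N + m)] ∧
          ¬ ((∀ a ∈ l', a < M) ∧ (cc l' : ℝ) ≤ 4 ^ (L / 16) * 2 ^ l'.sum)), pw M l' =
          ∑ m ∈ range (10 * (L / N) + 1), ∑ l ∈ G, om l * (3 ^ (L / N + m) *
          ∑ l' ∈ (words M (L / N + m)).filter (fun l' => 2 ^ l'.sum * en l y ≡ cc l' [MOD 3 ^ (L / N + m)] ∧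
          ¬ ((∀ a ∈ l', a < M) ∧ (cc l' : ℝ) ≤ 4 ^ (L / 16) * 2 ^ l'.sum)), pw M l') := by
        rw [sum_comm]
        exact sum_congr rfl fun l _ => mul_sum _ _ _
      rw [a0]
      have a1 : ∀ m ∈ range (10 * (L / N) + 1), ∑ l ∈ G, om l * (3 ^ (L / N + m) *
          ∑ l' ∈ (words M (L / N + m)).filter (fun l' => 2 ^ l'.sum * en l y ≡ cc l' [MOD 3 ^ (L / N + m)] ∧
          ¬ ((∀ a ∈ l', a < M) ∧ (cc l' : ℝ) ≤ 4 ^ (L / 16) * 2 ^ l'.sum)), pw M l') ≤
          D * (L : ℝ) ^ 3 * (2 * L * Real.exp (-(1 * L)) + 2 * K2 * Real.exp (-(1 / 25 * L))) := by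
        intro m hm
        rw [mem_range] at hm
        refine (bad_mass h (by omega) _).trans ?_
        apply mul_le_mul_of_nonneg_left _ (by positivity)
        exact fin_bad hK2 (fun M k hM => hcc M k (by omega)) (by omega) hM (by omega) (by omega)
      refine (sum_le_sum a1).trans ?_
      rw [sum_const, card_range, nsmul_eq_mul]
      have a2 : ((10 * (L / N) + 1 : ℕ) : ℝ) ≤ L := by
        have : 10 * (L / N) + 1 ≤ L := by omega
        exact_mod_cast this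
      have a3 : 0 ≤ D * (L : ℝ) ^ 3 * (2 * L * Real.exp (-(1 * L)) + 2 * K2 * Real.exp (-(1 / 25 * L))) := by
        positivity
      calc ((10 * (L / N) + 1 : ℕ) : ℝ) * (D * (L : ℝ) ^ 3 *
            (2 * L * Real.exp (-(1 * L)) + 2 * K2 * Real.exp (-(1 / 25 * L)))) ≤
            L * (D * (L : ℝ) ^ 3 * (2 * L * Real.exp (-(1 * L)) + 2 * K2 * Real.exp (-(1 / 25 * L)))) :=
            mul_le_mul_of_nonneg_right a2 a3
        _ = 2 * D * (L : ℝ) ^ 5 * Real.exp (-(1 * L)) + 2 * D * K2 * (L : ℝ) ^ 4 * Real.exp (-(1 / 25 * L)) := by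
            ring
        _ ≤ κ * δ / 40 + κ * δ / 40 := add_le_add e6 e7
    -- good = main - bad
    have hgood : ∑ l ∈ G, om l * ∑ m ∈ range (10 * (L / N) + 1), 3 ^ (L / N + m) *
        ∑ l' ∈ (words M (L / N + m)).filter (fun l' => 2 ^ l'.sum * en l y ≡ cc l' [MOD 3 ^ (L / N + m)] ∧
        cellT θ Θ (t + L + (L / N + m)) l.sum l'.sum), pw M l' ≤
        ∑ l ∈ G, om l * ∑ m ∈ range (10 * (L / N) + 1), 3 ^ (L / N + m) *
        ∑ l' ∈ (words M (L / N + m)).filter (fun l' => (2 ^ l'.sum * en l y ≡ cc l' [MOD 3 ^ (L / N + m)] ∧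
        cellT θ Θ (t + L + (L / N + m)) l.sum l'.sum) ∧
          ((∀ a ∈ l', a < M) ∧ (cc l' : ℝ) ≤ 4 ^ (L / 16) * 2 ^ l'.sum)), pw M l' +
        ∑ l ∈ G, om l * ∑ m ∈ range (10 * (L / N) + 1), 3 ^ (L / N + m) *
        ∑ l' ∈ (words M (L / N + m)).filter (fun l' => 2 ^ l'.sum * en l y ≡ cc l' [MOD 3 ^ (L / N + m)] ∧
        ¬ ((∀ a ∈ l', a < M) ∧ (cc l' : ℝ) ≤ 4 ^ (L / 16) * 2 ^ l'.sum)), pw M l' := by
      rw [← sum_add_distrib]
      refine sum_le_sum fun l _ => ?_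
      rw [← mul_add, ← sum_add_distrib]
      refine mul_le_mul_of_nonneg_left (sum_le_sum fun m _ => ?_) (om_pos l).le
      rw [← mul_add]
      apply mul_le_mul_of_nonneg_left _ (by positivity)
      rw [← sum_union_inter]
      refine le_trans (sum_le_sum_of_subset_of_nonneg ?_ fun _ _ _ => L_pw_nonneg M _)
        (le_add_of_nonneg_right (sum_nonneg fun _ _ => L_pw_nonneg M _))
      intro u hu
      rw [mem_filter] at hu
      rw [mem_union, mem_filter, mem_filter]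
      by_cases hc : (∀ a ∈ u, a < M) ∧ (cc u : ℝ) ≤ 4 ^ (L / 16) * 2 ^ u.sum
      · left
        exact ⟨hu.1, hu.2, hc⟩
      · right
        exact ⟨hu.1, hu.2.1, hc⟩
    -- the mixing error
    have hmix : ∑ m ∈ range (10 * (L / N) + 1), D * (L : ℝ) ^ 3 * ∑ n ∈ Ico (L / N) (L / N + m), tt M (L / N + m) n ≤
        κ * δ / 20 := by
      have hq0 : (0 : ℝ) ≤ (L / N : ℕ) := Nat.cast_nonneg _
      have a1 : ∀ m ∈ range (10 * (L / N) + 1), D * (L : ℝ) ^ 3 * ∑ n ∈ Ico (L / N) (L / N + m), tt M (L / N + m) n ≤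
          D * (L : ℝ) ^ 3 * (10 * (L / N : ℕ) * (max K8 0 / ((L / N : ℕ) + 1) ^ 8)) := by
        intro m hm
        rw [mem_range] at hm
        apply mul_le_mul_of_nonneg_left _ (by positivity)
        have b1 : ∀ n ∈ Ico (L / N) (L / N + m), tt M (L / N + m) n ≤ max K8 0 / ((L / N : ℕ) + 1) ^ 8 := by
          intro n hn
          rw [mem_Ico] at hn
          refine (tt_le (by omega) hn.2).trans ((hK8 M n (by omega)).trans ?_)
          have c1 : K8 / ((n : ℝ) + 1) ^ 8 ≤ max K8 0 / ((n : ℝ) + 1) ^ 8 :=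
            div_le_div_of_nonneg_right (le_max_left _ _) (by positivity)
          refine c1.trans (div_le_div_of_nonneg_left (le_max_right _ _) (by positivity) ?_)
          have c2 : ((L / N : ℕ) : ℝ) ≤ n := by exact_mod_cast hn.1
          exact pow_le_pow_left₀ (by positivity) (by linarith) 8
        refine (sum_le_card_nsmul _ _ _ b1).trans ?_
        rw [Nat.card_Ico, nsmul_eq_mul]
        apply mul_le_mul_of_nonneg_right _ (by positivity)
        have b2 : L / N + m - L / N ≤ 10 * (L / N) := by omega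
        calc ((L / N + m - L / N : ℕ) : ℝ) ≤ ((10 * (L / N) : ℕ) : ℝ) := by exact_mod_cast b2
          _ = 10 * ((L / N : ℕ) : ℝ) := by push_cast; ring
      refine (sum_le_sum a1).trans ?_
      rw [sum_const, card_range, nsmul_eq_mul]
      push_cast
      set q : ℝ := ((L / N : ℕ) : ℝ) with hq
      set K := max K8 0 with hK
      have hK0 : 0 ≤ K := le_max_right _ _
      have a2 : (L : ℝ) ^ 3 ≤ ((q + 1) * N) ^ 3 := pow_le_pow_left₀ hL0.le hp2 3
      have a3 : (10 * q + 1) * (D * (L : ℝ) ^ 3 * (10 * q * (K / (q + 1) ^ 8))) ≤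
          (10 * (q + 1)) * (D * ((q + 1) * N) ^ 3 * (10 * (q + 1) * (K / (q + 1) ^ 8))) := by
        apply mul_le_mul (by linarith) _ (by positivity) (by positivity)
        apply mul_le_mul _ _ (by positivity) (by positivity)
        · exact mul_le_mul_of_nonneg_left a2 hD
        · apply mul_le_mul_of_nonneg_right (by linarith) (by positivity)
      refine a3.trans ?_
      have hq1 : 0 < q + 1 := by linarith
      have a4 : (10 * (q + 1)) * (D * ((q + 1) * N) ^ 3 * (10 * (q + 1) * (K / (q + 1) ^ 8))) =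
          100 * D * K * N ^ 3 / (q + 1) ^ 3 := by
        field_simp
        ring
      rw [a4, div_le_iff₀ (by positivity)]
      have a5 : (q + 1) ≤ (q + 1) ^ 3 := by
        have : 1 ≤ (q + 1) ^ 2 := by
          apply one_le_pow₀
          linarith
        nlinarith
      have a6 : κ * δ * L ≤ κ * δ * ((q + 1) * N) := mul_le_mul_of_nonneg_left hp2 hκδ.le
      have a7 : 2200 * D * K * N ^ 4 ≤ κ * δ * ((q + 1) * N) := e5.trans a6
      have a8 : 2200 * D * K * N ^ 3 ≤ κ * δ * (q + 1) := by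
        have b1 : 2200 * D * K * N ^ 3 * N ≤ κ * δ * (q + 1) * N := by
          calc 2200 * D * K * N ^ 3 * N = 2200 * D * K * N ^ 4 := by ring
            _ ≤ κ * δ * ((q + 1) * N) := a7
            _ = κ * δ * (q + 1) * N := by ring
        exact le_of_mul_le_mul_right b1 hN0
      have a9 : κ * δ * (q + 1) ≤ κ * δ * (q + 1) ^ 3 := mul_le_mul_of_nonneg_left a5 hκδ.le
      have a10 : 0 ≤ D * K * (N : ℝ) ^ 3 := by positivity
      linarith
    -- the bad start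
    have hst : cst * (D * (L : ℝ) ^ 3 * ∑ u ∈ (words M (L / N)).filter
        (fun u => ¬ (|(u.sum : ℝ) - 2 * (L / N : ℕ)| ≤ ((L / N : ℕ) : ℝ) / 10)), pw M u) ≤ κ * δ / 8 := by
      have a1 := hbs M (L / N) (by omega)
      simp only [Nat.cast_ofNat] at a1
      refine le_trans (mul_le_mul_of_nonneg_left (mul_le_mul_of_nonneg_left a1 (by positivity)) hcst)
        (le_trans ?_ e4)
      have a2 : Real.exp (-(c1 * ((L / N : ℕ) : ℝ))) ≤ Real.exp c1 * Real.exp (-(c1 / N * L)) := by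
        rw [← Real.exp_add]
        apply Real.exp_le_exp.2
        have : c1 / N * L ≤ c1 / N * (((L / N : ℕ) + 1) * N) := mul_le_mul_of_nonneg_left hp2 (by positivity)
        have e : c1 / N * ((((L / N : ℕ) : ℝ) + 1) * N) = c1 * (L / N : ℕ) + c1 := by
          field_simp
        linarith
      calc cst * (D * (L : ℝ) ^ 3 * (K1 * Real.exp (-(c1 * ((L / N : ℕ) : ℝ))))) ≤
            cst * (D * (L : ℝ) ^ 3 * (K1 * (Real.exp c1 * Real.exp (-(c1 / N * L))))) := by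
            apply mul_le_mul_of_nonneg_left _ hcst
            apply mul_le_mul_of_nonneg_left _ (by positivity)
            exact mul_le_mul_of_nonneg_left a2 hK1.le
        _ = cst * (D * K1 * Real.exp c1) * (L : ℝ) ^ 3 * Real.exp (-(c1 / N * L)) := by ring
    have hlow : κ * (Real.log (1 / θ) / Real.log (4 / 3) - δ) ≤ ∑ l ∈ G, om l * ∑ m ∈ range (10 * (L / N) + 1), 3 ^ (L / N + m) *
        ∑ l' ∈ (words M (L / N + m)).filter (fun l' => (2 ^ l'.sum * en l y ≡ cc l' [MOD 3 ^ (L / N + m)] ∧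
        cellT θ Θ (t + L + (L / N + m)) l.sum l'.sum) ∧
          ((∀ a ∈ l', a < M) ∧ (cc l' : ℝ) ≤ 4 ^ (L / 16) * 2 ^ l'.sum)), pw M l' := by
      have w1 := hmain.trans hgood
      have w2 : κ * (Real.log (1 / θ) / Real.log (4 / 3) - δ / 2) ≤ κ * cst :=
        mul_le_mul_of_nonneg_left hcst1 hκ.le
      rw [mul_sub] at w1
      linarith
    refine hlow.trans (le_of_eq ?_)
    refine sum_congr rfl fun l _ => ?_
    congr 1
    refine sum_congr rfl fun m _ => ?_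
    congr 1
    refine sum_congr ?_ fun _ _ => rfl
    ext u
    simp only [mem_filter]

end H62r
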