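import Mathlib

/-!
Expected visits of the two-step walk with steps `log 2` and `log 2 - log 3`, each with chance one half.
-/

namespace H62r

open Filter Topology

noncomputable def bw (J m : ℕ) : ℝ := (J.choose m : ℝ) / 2 ^ J

noncomputable def ps (J m : ℕ) : ℝ := (J : ℝ) * Real.log 2 - (m : ℝ) * Real.log 3

noncomputable def EE (J : ℕ) (g : ℝ → ℝ) : ℝ :=
  ∑ m ∈ Finset.range (J + 1), bw J m * g (ps J m)

open Classical in
noncomputable def WI (h x s : ℝ) : ℝ := if x - h < s ∧ s ≤ x then 1 else 0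

noncomputable def NN (h x : ℝ) : ℝ := ∑' J, EE J (WI h x)

lemma bw_nonneg (J m : ℕ) : 0 ≤ bw J m := by unfold bw; positivity

lemma WI_nonneg (h x s : ℝ) : 0 ≤ WI h x s := by unfold WI; split_ifs <;> norm_num

lemma WI_le_one (h x s : ℝ) : WI h x s ≤ 1 := by unfold WI; split_ifs <;> norm_num

lemma EE_zero (g : ℝ → ℝ) : EE 0 g = g 0 := by
  simp [EE, bw, ps]

lemma EE_succ (J : ℕ) (g : ℝ → ℝ) :
    EE (J + 1) g = (EE J (fun s => g (s + Real.log 2)) +
      EE J (fun s => g (s + Real.log 2 - Real.log 3))) / 2 := by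
  unfold EE
  rw [Finset.sum_range_succ' _ (J + 1)]
  have h1 : ∀ m ∈ Finset.range (J + 1), bw (J + 1) (m + 1) * g (ps (J + 1) (m + 1)) =
      (bw J m * g (ps (J + 1) (m + 1))) / 2 + (bw J (m + 1) * g (ps (J + 1) (m + 1))) / 2 := by
    intro m _
    unfold bw
    rw [Nat.choose_succ_succ, pow_succ]
    push_cast
    field_simp
  rw [Finset.sum_congr rfl h1, Finset.sum_add_distrib]
  have h2 : ∑ m ∈ Finset.range (J + 1), (bw J (m + 1) * g (ps (J + 1) (m + 1))) / 2 +
      bw (J + 1) 0 * g (ps (J + 1) 0) =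
      ∑ m ∈ Finset.range (J + 1), (bw J m * g (ps (J + 1) m)) / 2 := by
    have e1 := Finset.sum_range_succ' (fun m => (bw J m * g (ps (J + 1) m)) / 2) (J + 1)
    have e2 := Finset.sum_range_succ (fun m => (bw J m * g (ps (J + 1) m)) / 2) (J + 1)
    have e3 : bw J (J + 1) = 0 := by simp [bw]
    rw [e3] at e2
    rw [e2] at e1
    have e4 : bw (J + 1) 0 * g (ps (J + 1) 0) = (bw J 0 * g (ps (J + 1) 0)) / 2 := by
      unfold bw
      rw [pow_succ]
      simp
      field_simp
    rw [e4]
    linarith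
  rw [add_assoc, h2, ← Finset.sum_add_distrib, ← Finset.sum_add_distrib, Finset.sum_div]
  refine Finset.sum_congr rfl fun m _ => ?_
  have e5 : ps (J + 1) (m + 1) = ps J m + Real.log 2 - Real.log 3 := by
    unfold ps; push_cast; ring
  have e6 : ps (J + 1) m = ps J m + Real.log 2 := by
    unfold ps; push_cast; ring
  rw [e5, e6]
  ring

lemma EE_mono (J : ℕ) {g g' : ℝ → ℝ} (h : ∀ s, g s ≤ g' s) : EE J g ≤ EE J g' := by
  unfold EE
  exact Finset.sum_le_sum fun m _ => mul_le_mul_of_nonneg_left (h _) (bw_nonneg J m)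

lemma EE_nonneg (J : ℕ) {g : ℝ → ℝ} (h : ∀ s, 0 ≤ g s) : 0 ≤ EE J g := by
  unfold EE
  exact Finset.sum_nonneg fun m _ => mul_nonneg (bw_nonneg J m) (h _)

lemma EE_add (J : ℕ) (g g' : ℝ → ℝ) : EE J (fun s => g s + g' s) = EE J g + EE J g' := by
  unfold EE
  rw [← Finset.sum_add_distrib]
  exact Finset.sum_congr rfl fun m _ => by ring

lemma EE_sub (J : ℕ) (g g' : ℝ → ℝ) : EE J (fun s => g s - g' s) = EE J g - EE J g' := by
  unfold EE
  rw [← Finset.sum_sub_distrib]
  exact Finset.sum_congr rfl fun m _ => by ring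

lemma EE_mul (J : ℕ) (c : ℝ) (g : ℝ → ℝ) : EE J (fun s => c * g s) = c * EE J g := by
  unfold EE
  rw [Finset.mul_sum]
  exact Finset.sum_congr rfl fun m _ => by ring

lemma EE_sum (J k : ℕ) (g : ℕ → ℝ → ℝ) :
    EE J (fun s => ∑ i ∈ Finset.range k, g i s) = ∑ i ∈ Finset.range k, EE J (g i) := by
  unfold EE
  rw [Finset.sum_comm]
  exact Finset.sum_congr rfl fun m _ => by rw [Finset.mul_sum]

/-- the mean contraction factor -/
noncomputable def rho : ℝ := (Real.exp (-(Real.log 2) / 2) +
  Real.exp (-(Real.log 2 - Real.log 3) / 2)) / 2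

lemma rho_pos : 0 < rho := by unfold rho; positivity

lemma rho_lt : rho < 97 / 100 := by
  have e1 : Real.exp (-(Real.log 2) / 2) = Real.sqrt (1 / 2) := by
    rw [Real.sqrt_eq_rpow, Real.rpow_def_of_pos (by norm_num)]
    congr 1
    rw [Real.log_div (by norm_num) (by norm_num), Real.log_one]
    ring
  have e2 : Real.exp (-(Real.log 2 - Real.log 3) / 2) = Real.sqrt (3 / 2) := by
    rw [Real.sqrt_eq_rpow, Real.rpow_def_of_pos (by norm_num)]
    congr 1
    rw [Real.log_div (by norm_num) (by norm_num)]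
    ring
  unfold rho
  rw [e1, e2]
  have h1 : Real.sqrt (1 / 2) < 708 / 1000 := by
    rw [Real.sqrt_lt' (by norm_num)]
    norm_num
  have h2 : Real.sqrt (3 / 2) < 1225 / 1000 := by
    rw [Real.sqrt_lt' (by norm_num)]
    norm_num
  linarith

lemma EE_exp (J : ℕ) (x : ℝ) : EE J (fun s => Real.exp (-(s - x) / 2)) =
    rho ^ J * Real.exp (x / 2) := by
  induction J generalizing x with
  | zero => rw [EE_zero]; simp
  | succ J ih =>
    rw [EE_succ]
    have h1 : (fun s : ℝ => Real.exp (-(s + Real.log 2 - x) / 2)) =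
        fun s => Real.exp (-(s - (x - Real.log 2)) / 2) := by
      funext s; congr 1; ring
    have h2 : (fun s : ℝ => Real.exp (-(s + Real.log 2 - Real.log 3 - x) / 2)) =
        fun s => Real.exp (-(s - (x - Real.log 2 + Real.log 3)) / 2) := by
      funext s; congr 1; ring
    rw [h1, h2, ih, ih]
    have e1 : Real.exp ((x - Real.log 2) / 2) = Real.exp (x / 2) * Real.exp (-(Real.log 2) / 2) := by
      rw [← Real.exp_add]; congr 1; ring
    have e2 : Real.exp ((x - Real.log 2 + Real.log 3) / 2) =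
        Real.exp (x / 2) * Real.exp (-(Real.log 2 - Real.log 3) / 2) := by
      rw [← Real.exp_add]; congr 1; ring
    rw [e1, e2, pow_succ]
    unfold rho
    ring

noncomputable def GG (x s : ℝ) : ℝ := min 1 (Real.exp (-(s - x) / 2))

lemma GG_nonneg (x s : ℝ) : 0 ≤ GG x s := by
  unfold GG; exact le_min (by norm_num) (Real.exp_pos _).le

lemma GG_step (x s : ℝ) : (GG x (s + Real.log 2) + GG x (s + Real.log 2 - Real.log 3)) / 2 +
    (1 / 100) * WI (1 / 100) x s ≤ GG x s := by
  have a1 : GG x (s + Real.log 2) ≤ 1 := min_le_left _ _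
  have a2 : GG x (s + Real.log 2 - Real.log 3) ≤ 1 := min_le_left _ _
  have b1 : GG x (s + Real.log 2) ≤ Real.exp (-(s - x) / 2) * Real.exp (-(Real.log 2) / 2) := by
    refine (min_le_right _ _).trans (le_of_eq ?_)
    rw [← Real.exp_add]; congr 1; ring
  have b2 : GG x (s + Real.log 2 - Real.log 3) ≤ Real.exp (-(s - x) / 2) *
      Real.exp (-(Real.log 2 - Real.log 3) / 2) := by
    refine (min_le_right _ _).trans (le_of_eq ?_)
    rw [← Real.exp_add]; congr 1; ring
  have b3 : (GG x (s + Real.log 2) + GG x (s + Real.log 2 - Real.log 3)) / 2 ≤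
      Real.exp (-(s - x) / 2) * rho := by
    unfold rho; linarith
  have hr := rho_lt
  have hr0 := rho_pos
  by_cases hs : s ≤ x
  · have hG : GG x s = 1 := by
      unfold GG
      apply min_eq_left
      rw [← Real.exp_zero]
      exact Real.exp_le_exp.mpr (by linarith)
    rw [hG]
    unfold WI
    split_ifs with hw
    · have h3 : Real.exp (-(s - x) / 2) ≤ 1.01 := by
        have h4 : -(s - x) / 2 ≤ 1 / 200 := by linarith [hw.1]
        have h5 : Real.exp (1 / 200 : ℝ) ≤ 1.01 := by
          have := Real.exp_bound' (x := 1 / 200) (by norm_num) (by norm_num) (n := 2) (by norm_num)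
          refine this.trans ?_
          norm_num [Finset.sum_range_succ]
        exact (Real.exp_le_exp.mpr h4).trans h5
      have h6 : Real.exp (-(s - x) / 2) * rho ≤ 1.01 * (97 / 100) := by
        exact mul_le_mul h3 hr.le hr0.le (by norm_num)
      have h8 := b3.trans h6
      linarith
    · linarith
  · push Not at hs
    have hG : GG x s = Real.exp (-(s - x) / 2) := by
      unfold GG
      apply min_eq_right
      rw [Real.exp_le_one_iff]
      linarith
    have hW : WI (1 / 100) x s = 0 := by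
      unfold WI; rw [if_neg]; intro hh; linarith [hh.2]
    rw [hG, hW]
    have h7 : Real.exp (-(s - x) / 2) * rho ≤ Real.exp (-(s - x) / 2) * 1 :=
      mul_le_mul_of_nonneg_left (by linarith) (Real.exp_pos _).le
    linarith

lemma visits_small (x : ℝ) (K : ℕ) :
    ∑ J ∈ Finset.range K, EE J (WI (1 / 100) x) ≤ 100 := by
  have key : ∀ K : ℕ, (1 / 100) * ∑ J ∈ Finset.range K, EE J (WI (1 / 100) x) + EE K (GG x) ≤ 1 := by
    intro K
    induction K with
    | zero =>
      rw [EE_zero]; simp only [Finset.range_zero, Finset.sum_empty, mul_zero, zero_add]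
      exact min_le_left _ _
    | succ K ih =>
      rw [Finset.sum_range_succ, EE_succ]
      have h1 : EE K (fun s => (GG x (s + Real.log 2) + GG x (s + Real.log 2 - Real.log 3)) / 2 +
          (1 / 100) * WI (1 / 100) x s) ≤ EE K (GG x) := EE_mono K (GG_step x)
      have h2 : EE K (fun s => (GG x (s + Real.log 2) + GG x (s + Real.log 2 - Real.log 3)) / 2 +
          (1 / 100) * WI (1 / 100) x s) = (EE K (fun s => GG x (s + Real.log 2)) +
          EE K (fun s => GG x (s + Real.log 2 - Real.log 3))) / 2 +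
          (1 / 100) * EE K (WI (1 / 100) x) := by
        rw [EE_add, EE_mul]
        congr 1
        have : (fun s => (GG x (s + Real.log 2) + GG x (s + Real.log 2 - Real.log 3)) / 2) =
            fun s => (1 / 2) * (GG x (s + Real.log 2) + GG x (s + Real.log 2 - Real.log 3)) := by
          funext s; ring
        rw [this, EE_mul, EE_add]
        ring
      rw [h2] at h1
      linarith
  have := key K
  have h0 : 0 ≤ EE K (GG x) := EE_nonneg K (GG_nonneg x)
  linarith

lemma visits_bound (h : ℝ) : ∃ C : ℝ, 0 ≤ C ∧ ∀ x : ℝ, ∀ K : ℕ,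
    ∑ J ∈ Finset.range K, EE J (WI h x) ≤ C := by
  obtain ⟨k, hk⟩ := exists_nat_ge (100 * h)
  refine ⟨k * 100, by positivity, fun x K => ?_⟩
  have h1 : ∀ s, WI h x s ≤ ∑ i ∈ Finset.range k, WI (1 / 100) (x - i * (1 / 100)) s := by
    intro s
    by_cases hw : x - h < s ∧ s ≤ x
    · have e1 : WI h x s = 1 := by unfold WI; rw [if_pos hw]
      rw [e1]
      -- index
      set t : ℝ := 100 * (x - s) with ht
      have ht0 : 0 ≤ t := by rw [ht]; linarith [hw.2]
      have hi : ⌊t⌋₊ < k := by
        rw [Nat.floor_lt ht0]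
        have : t < 100 * h := by rw [ht]; linarith [hw.1]
        linarith
      have hsingle := Finset.single_le_sum (f := fun i : ℕ => WI (1 / 100) (x - i * (1 / 100)) s)
        (fun i _ => WI_nonneg _ _ _) (Finset.mem_range.mpr hi)
      refine le_trans ?_ hsingle
      show 1 ≤ WI (1 / 100) (x - (⌊t⌋₊ : ℝ) * (1 / 100)) s
      unfold WI
      rw [if_pos]
      have f1 := Nat.floor_le ht0
      have f2 := Nat.lt_floor_add_one t
      constructor
      · rw [ht] at f2; linarith
      · rw [ht] at f1; linarith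
    · have e1 : WI h x s = 0 := by unfold WI; rw [if_neg hw]
      rw [e1]
      exact Finset.sum_nonneg fun i _ => WI_nonneg _ _ _
  calc ∑ J ∈ Finset.range K, EE J (WI h x)
      ≤ ∑ J ∈ Finset.range K, ∑ i ∈ Finset.range k, EE J (WI (1 / 100) (x - i * (1 / 100))) := by
        refine Finset.sum_le_sum fun J _ => ?_
        rw [← EE_sum]
        exact EE_mono J h1
    _ = ∑ i ∈ Finset.range k, ∑ J ∈ Finset.range K, EE J (WI (1 / 100) (x - i * (1 / 100))) :=
        Finset.sum_comm
    _ ≤ ∑ i ∈ Finset.range k, (100 : ℝ) := Finset.sum_le_sum fun i _ => visits_small _ _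
    _ = k * 100 := by simp

lemma EEW_nonneg (J : ℕ) (h x : ℝ) : 0 ≤ EE J (WI h x) := EE_nonneg J (WI_nonneg h x)

lemma summable_visits (h x : ℝ) : Summable fun J => EE J (WI h x) := by
  obtain ⟨C, _, hC⟩ := visits_bound h
  exact summable_of_sum_range_le (fun J => EEW_nonneg J h x) (hC x)

lemma NN_nonneg (h x : ℝ) : 0 ≤ NN h x := tsum_nonneg fun J => EEW_nonneg J h x

lemma NN_bound (h : ℝ) : ∃ C : ℝ, 0 ≤ C ∧ ∀ x : ℝ, NN h x ≤ C := by
  obtain ⟨C, h0, hC⟩ := visits_bound h
  exact ⟨C, h0, fun x => (summable_visits h x).tsum_le_of_sum_range_le (hC x)⟩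

end H62r
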