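import Pool.Agent.Lib.H62r.RL1

/-!
Large deviations of the binomial weights and the shift by `log 2`.
-/

namespace H62r

open Filter Topology

lemma bw_mgf (n : ℕ) (t : ℝ) : ∑ m ∈ Finset.range (n + 1), bw n m *
    Real.exp (t * (2 * (m : ℝ) - n)) = Real.cosh t ^ n := by
  have h1 : Real.cosh t = (Real.exp t + Real.exp (-t)) / 2 := Real.cosh_eq t
  rw [h1, div_pow, add_pow, Finset.sum_div]
  refine Finset.sum_congr rfl fun m hm => ?_
  have hmn : m ≤ n := Nat.lt_succ_iff.mp (Finset.mem_range.mp hm)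
  have h2 : Real.exp (t * (2 * (m : ℝ) - n)) = Real.exp t ^ m * Real.exp (-t) ^ (n - m) := by
    rw [← Real.exp_nat_mul, ← Real.exp_nat_mul, ← Real.exp_add]
    congr 1
    rw [Nat.cast_sub hmn]
    ring
  rw [h2]
  unfold bw
  ring

open Classical in
/-- Hoeffding for the binomial weights. -/
lemma bw_tail (n : ℕ) {η : ℝ} (hη : 0 < η) :
    ∑ m ∈ Finset.range (n + 1), (if η * n < |2 * (m : ℝ) - n| then bw n m else 0) ≤
      2 * Real.exp (-(η ^ 2 / 2)) ^ n := by
  have h1 : ∀ m ∈ Finset.range (n + 1), (if η * n < |2 * (m : ℝ) - n| then bw n m else 0) ≤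
      Real.exp (-(η * (η * n))) * (bw n m * Real.exp (η * (2 * (m : ℝ) - n)) +
        bw n m * Real.exp (-η * (2 * (m : ℝ) - n))) := by
    intro m _
    have hb := bw_nonneg n m
    split_ifs with hc
    · have e : Real.exp (-(η * (η * n))) * (bw n m * Real.exp (η * (2 * (m : ℝ) - n)) +
        bw n m * Real.exp (-η * (2 * (m : ℝ) - n))) =
        bw n m * (Real.exp (-(η * (η * n)) + η * (2 * (m : ℝ) - n)) +
          Real.exp (-(η * (η * n)) + -η * (2 * (m : ℝ) - n))) := by
        rw [Real.exp_add, Real.exp_add]; ring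
      rw [e]
      have h2 : 1 ≤ Real.exp (-(η * (η * n)) + η * (2 * (m : ℝ) - n)) +
          Real.exp (-(η * (η * n)) + -η * (2 * (m : ℝ) - n)) := by
        rcases lt_abs.mp hc with h | h
        · have : 1 ≤ Real.exp (-(η * (η * n)) + η * (2 * (m : ℝ) - n)) := by
            rw [← Real.exp_zero]
            apply Real.exp_le_exp.mpr
            nlinarith
          have := (Real.exp_pos (-(η * (η * n)) + -η * (2 * (m : ℝ) - n))).le
          linarith
        · have : 1 ≤ Real.exp (-(η * (η * n)) + -η * (2 * (m : ℝ) - n)) := by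
            rw [← Real.exp_zero]
            apply Real.exp_le_exp.mpr
            nlinarith
          have := (Real.exp_pos (-(η * (η * n)) + η * (2 * (m : ℝ) - n))).le
          linarith
      nlinarith
    · positivity
  refine (Finset.sum_le_sum h1).trans ?_
  rw [← Finset.mul_sum, Finset.sum_add_distrib, bw_mgf, bw_mgf, Real.cosh_neg]
  have h3 : Real.cosh η ^ n ≤ Real.exp (η ^ 2 / 2) ^ n :=
    pow_le_pow_left₀ (Real.cosh_pos η).le (Real.cosh_le_exp_half_sq η) n
  have h4 : Real.exp (-(η * (η * n))) * (Real.exp (η ^ 2 / 2) ^ n) =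
      Real.exp (-(η ^ 2 / 2)) ^ n := by
    rw [← Real.exp_nat_mul, ← Real.exp_nat_mul, ← Real.exp_add]
    congr 1
    ring
  have h5 := (Real.exp_pos (-(η * (η * n)))).le
  nlinarith [mul_le_mul_of_nonneg_left h3 h5]

open Classical in
lemma bw_diff (J m : ℕ) (hm : m ≤ J) {η : ℝ} (hη : 0 < η) (hη1 : η ≤ 1 / 2) :
    |bw (J + 1) m - bw J m| ≤ 2 * η * bw J m +
      3 * (if η * ((J + 1 : ℕ) : ℝ) < |2 * (m : ℝ) - ((J + 1 : ℕ) : ℝ)| then bw (J + 1) m else 0) := by
  have hb1 := bw_nonneg (J + 1) m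
  have hb0 := bw_nonneg J m
  -- the ratio
  have hr : bw (J + 1) m * (2 * ((J : ℝ) + 1 - m)) = bw J m * ((J : ℝ) + 1) := by
    unfold bw
    have h1 : ((J + 1).choose m : ℝ) * ((J : ℝ) + 1 - m) = (J.choose m : ℝ) * ((J : ℝ) + 1) := by
      have := Nat.choose_mul_succ_eq J m
      have h2 : ((J.choose m * (J + 1) : ℕ) : ℝ) = (((J + 1).choose m * (J + 1 - m) : ℕ) : ℝ) := by
        exact_mod_cast this
      rw [Nat.cast_mul, Nat.cast_mul, Nat.cast_sub (by omega)] at h2
      push_cast at h2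
      linarith
    rw [pow_succ]
    field_simp
    linarith
  have hmJ : (m : ℝ) ≤ J := by exact_mod_cast hm
  have hJ0 : (0 : ℝ) ≤ J := Nat.cast_nonneg J
  have hm0 : (0 : ℝ) ≤ m := Nat.cast_nonneg m
  push_cast
  split_ifs with hc
  · -- atypical
    have h3 : bw J m ≤ 2 * bw (J + 1) m := by
      have h4 : bw J m * ((J : ℝ) + 1) ≤ (2 * bw (J + 1) m) * ((J : ℝ) + 1) := by
        rw [← hr]
        nlinarith
      exact le_of_mul_le_mul_right h4 (by linarith)
    rw [abs_le]
    constructor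
    · nlinarith
    · nlinarith
  · push Not at hc
    rw [abs_le] at hc
    have hpos : (0 : ℝ) < (J : ℝ) + 1 - m := by linarith
    have hlow : ((J : ℝ) + 1) / 4 ≤ (J : ℝ) + 1 - m := by nlinarith [hc.2]
    have h5 : (bw (J + 1) m - bw J m) * (2 * ((J : ℝ) + 1 - m)) =
        bw J m * (2 * (m : ℝ) - (J + 1)) := by
      rw [sub_mul, hr]; ring
    have h6 : |bw (J + 1) m - bw J m| * (2 * ((J : ℝ) + 1 - m)) =
        bw J m * |2 * (m : ℝ) - (J + 1)| := by
      have e : |2 * ((J : ℝ) + 1 - m)| = 2 * ((J : ℝ) + 1 - m) := abs_of_pos (by linarith)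
      rw [← e, ← abs_mul, h5, abs_mul, abs_of_nonneg hb0]
    have h7 : |2 * (m : ℝ) - (J + 1)| ≤ η * (J + 1) := abs_le.mpr hc
    have h8 : |bw (J + 1) m - bw J m| * (2 * ((J : ℝ) + 1 - m)) ≤
        (2 * η * bw J m) * (2 * ((J : ℝ) + 1 - m)) := by
      rw [h6]
      calc bw J m * |2 * (m : ℝ) - (J + 1)| ≤ bw J m * (η * (J + 1)) :=
            mul_le_mul_of_nonneg_left h7 hb0
        _ ≤ bw J m * (η * (4 * ((J : ℝ) + 1 - m))) := by
            apply mul_le_mul_of_nonneg_left _ hb0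
            apply mul_le_mul_of_nonneg_left _ hη.le
            linarith
        _ = (2 * η * bw J m) * (2 * ((J : ℝ) + 1 - m)) := by ring
    have h9 := le_of_mul_le_mul_right h8 (by linarith)
    linarith

/-- the shift by `log 2` -/
lemma EE_shift (J : ℕ) (h x : ℝ) (hx : h ≤ x) :
    EE (J + 1) (WI h (x + Real.log 2)) =
      ∑ m ∈ Finset.range (J + 1), bw (J + 1) m * WI h x (ps J m) := by
  unfold EE
  rw [Finset.sum_range_succ]
  have h0 : WI h (x + Real.log 2) (ps (J + 1) (J + 1)) = 0 := by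
    unfold WI
    rw [if_neg]
    intro hc
    have h2 := Real.log_pos (show (1 : ℝ) < 2 by norm_num)
    have h3 : Real.log 2 < Real.log 3 := Real.log_lt_log (by norm_num) (by norm_num)
    have : ps (J + 1) (J + 1) ≤ 0 := by
      unfold ps
      have : (0 : ℝ) ≤ ((J + 1 : ℕ) : ℝ) := Nat.cast_nonneg _
      nlinarith
    linarith [hc.1]
  rw [h0, mul_zero, add_zero]
  refine Finset.sum_congr rfl fun m _ => ?_
  congr 1
  unfold WI
  have : ps (J + 1) m = ps J m + Real.log 2 := by unfold ps; push_cast; ring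
  rw [this]
  congr 1
  apply propext
  constructor
  · rintro ⟨h1, h2⟩; exact ⟨by linarith, by linarith⟩
  · rintro ⟨h1, h2⟩; exact ⟨by linarith, by linarith⟩

lemma NN_shift (h x : ℝ) (hx : h ≤ x) :
    NN h (x + Real.log 2) = ∑' J, EE (J + 1) (WI h (x + Real.log 2)) := by
  unfold NN
  rw [(summable_visits h (x + Real.log 2)).tsum_eq_zero_add, EE_zero]
  have : WI h (x + Real.log 2) 0 = 0 := by
    unfold WI
    rw [if_neg]
    intro hc
    have h2 := Real.log_pos (show (1 : ℝ) < 2 by norm_num)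
    linarith [hc.1]
  rw [this, zero_add]

open Classical in
lemma diff_bound (J : ℕ) (h x : ℝ) (hx : h ≤ x) {η : ℝ} (hη : 0 < η)
    (hη1 : η ≤ 1 / 2) :
    |EE (J + 1) (WI h (x + Real.log 2)) - EE J (WI h x)| ≤ 2 * η * EE J (WI h x) +
      (if x - h < J * Real.log 2 then 6 * Real.exp (-(η ^ 2 / 2)) ^ (J + 1) else 0) := by
  rw [EE_shift J h x hx]
  unfold EE
  rw [← Finset.sum_sub_distrib]
  refine (Finset.abs_sum_le_sum_abs _ _).trans ?_
  have h1 : ∀ m ∈ Finset.range (J + 1), |bw (J + 1) m * WI h x (ps J m) - bw J m * WI h x (ps J m)| ≤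
      2 * η * (bw J m * WI h x (ps J m)) + (if x - h < J * Real.log 2 then
        3 * (if η * ((J + 1 : ℕ) : ℝ) < |2 * (m : ℝ) - ((J + 1 : ℕ) : ℝ)| then bw (J + 1) m else 0)
        else 0) := by
    intro m hm
    have hmJ : m ≤ J := Nat.lt_succ_iff.mp (Finset.mem_range.mp hm)
    rw [← sub_mul, abs_mul, abs_of_nonneg (WI_nonneg h x _)]
    by_cases hw : x - h < ps J m ∧ ps J m ≤ x
    · have e1 : WI h x (ps J m) = 1 := by unfold WI; rw [if_pos hw]
      have e2 : x - h < J * Real.log 2 := by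
        have h3 : 0 < Real.log 3 := Real.log_pos (by norm_num)
        have := hw.1
        unfold ps at this
        have hm0 : (0 : ℝ) ≤ m := Nat.cast_nonneg m
        nlinarith
      rw [e1, mul_one, mul_one, if_pos e2]
      exact bw_diff J m hmJ hη hη1
    · have e1 : WI h x (ps J m) = 0 := by unfold WI; rw [if_neg hw]
      rw [e1, mul_zero, mul_zero, mul_zero, zero_add]
      have := bw_nonneg (J + 1) m
      split_ifs <;> positivity
  refine (Finset.sum_le_sum h1).trans ?_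
  rw [Finset.sum_add_distrib, ← Finset.mul_sum]
  gcongr
  split_ifs with hc
  · rw [← Finset.mul_sum]
    have h2 := bw_tail (J + 1) hη
    rw [Finset.sum_range_succ] at h2
    have h3 : 0 ≤ (if η * ((J + 1 : ℕ) : ℝ) < |2 * ((J + 1 : ℕ) : ℝ) - ((J + 1 : ℕ) : ℝ)| then
        bw (J + 1) (J + 1) else 0) := by
      have := bw_nonneg (J + 1) (J + 1)
      split_ifs <;> positivity
    linarith
  · simp

lemma tail_tendsto (h : ℝ) {q : ℝ} (hq0 : 0 ≤ q) (hq1 : q < 1) :
    Tendsto (fun x : ℝ => ∑' J : ℕ, (if x - h < J * Real.log 2 then 6 * q ^ (J + 1) else 0)) atTop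
      (𝓝 0) := by
  have hs : Summable fun J : ℕ => 6 * q ^ (J + 1) := by
    have := (summable_geometric_of_lt_one hq0 hq1).mul_left (6 * q)
    refine this.congr fun J => ?_
    rw [pow_succ]; ring
  have key := tendsto_tsum_of_dominated_convergence (𝓕 := (atTop : Filter ℝ))
    (f := fun (x : ℝ) (J : ℕ) => (if x - h < J * Real.log 2 then 6 * q ^ (J + 1) else 0))
    (g := fun _ => (0 : ℝ)) hs (fun J => ?_) (Eventually.of_forall fun x J => ?_)
  · rw [tsum_zero] at key
    exact key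
  · apply tendsto_const_nhds.congr'
    filter_upwards [eventually_ge_atTop (h + J * Real.log 2)] with x hx
    rw [if_neg (by linarith)]
  · have : 0 ≤ 6 * q ^ (J + 1) := by positivity
    show ‖(if x - h < J * Real.log 2 then 6 * q ^ (J + 1) else 0 : ℝ)‖ ≤ _
    split_ifs
    · rw [Real.norm_of_nonneg this]
    · rw [norm_zero]; exact this

lemma abs_diff_le (h : ℝ) {η : ℝ} (hη : 0 < η) (hη1 : η ≤ 1 / 2) {q : ℝ}
    (hq : q = Real.exp (-(η ^ 2 / 2))) (hq0 : 0 ≤ q) (hq1 : q < 1) {x : ℝ} (hxh : h ≤ x) :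
    |NN h (x + Real.log 2) - NN h x| ≤ 2 * η * NN h x +
      ∑' J : ℕ, (if x - h < J * Real.log 2 then 6 * q ^ (J + 1) else 0) := by
  have s1 : Summable fun J => EE (J + 1) (WI h (x + Real.log 2)) :=
    (summable_nat_add_iff 1).mpr (summable_visits h (x + Real.log 2))
  have s0 := summable_visits h x
  have e1 : NN h (x + Real.log 2) - NN h x =
      ∑' J, (EE (J + 1) (WI h (x + Real.log 2)) - EE J (WI h x)) := by
    rw [NN_shift h x hxh, s1.tsum_sub s0]
    rfl
  have hs : Summable fun J : ℕ => (if x - h < J * Real.log 2 then 6 * q ^ (J + 1) else 0) := by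
    refine Summable.of_nonneg_of_le (fun J => ?_) (fun J => ?_)
      ((summable_geometric_of_lt_one hq0 hq1).mul_left (6 * q))
    · split_ifs <;> positivity
    · have : 6 * q * q ^ J = 6 * q ^ (J + 1) := by rw [pow_succ]; ring
      rw [this]
      split_ifs
      · exact le_rfl
      · positivity
  have s2 : Summable fun J => |EE (J + 1) (WI h (x + Real.log 2)) - EE J (WI h x)| := (s1.sub s0).abs
  have b1 : |∑' J, (EE (J + 1) (WI h (x + Real.log 2)) - EE J (WI h x))| ≤
      ∑' J, |EE (J + 1) (WI h (x + Real.log 2)) - EE J (WI h x)| := by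
    have := norm_tsum_le_tsum_norm (f := fun J => EE (J + 1) (WI h (x + Real.log 2)) -
      EE J (WI h x)) s2
    simpa [Real.norm_eq_abs] using this
  have b2 : ∑' J, |EE (J + 1) (WI h (x + Real.log 2)) - EE J (WI h x)| ≤
      ∑' J, (2 * η * EE J (WI h x) +
          (if x - h < J * Real.log 2 then 6 * q ^ (J + 1) else 0)) := by
    refine s2.tsum_le_tsum (fun J => ?_) ((s0.mul_left _).add hs)
    rw [hq]
    exact diff_bound J h x hxh hη hη1
  have b3 : ∑' J, (2 * η * EE J (WI h x) +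
          (if x - h < J * Real.log 2 then 6 * q ^ (J + 1) else 0)) =
      2 * η * NN h x + ∑' J : ℕ, (if x - h < J * Real.log 2 then 6 * q ^ (J + 1) else 0) := by
    rw [(s0.mul_left _).tsum_add hs, tsum_mul_left]
    rfl
  rw [e1, ← b3]
  exact b1.trans b2

lemma shift_two (h : ℝ) :
    Tendsto (fun x => NN h (x + Real.log 2) - NN h x) atTop (𝓝 0) := by
  obtain ⟨C, hC0, hC⟩ := NN_bound h
  rw [Metric.tendsto_atTop]
  intro ε hε
  obtain ⟨η, hη, hη1, hη2⟩ : ∃ η : ℝ, 0 < η ∧ η ≤ 1 / 2 ∧ η * (4 * (C + 1)) ≤ ε := by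
    refine ⟨min (1 / 2) (ε / (4 * (C + 1))), lt_min (by norm_num) (by positivity),
      min_le_left _ _, ?_⟩
    have := min_le_right (1 / 2) (ε / (4 * (C + 1)))
    rwa [le_div_iff₀ (by positivity)] at this
  obtain ⟨q, hq, hq0, hq1⟩ : ∃ q : ℝ, q = Real.exp (-(η ^ 2 / 2)) ∧ 0 ≤ q ∧ q < 1 := by
    refine ⟨_, rfl, (Real.exp_pos _).le, ?_⟩
    rw [Real.exp_lt_one_iff]
    have : 0 < η ^ 2 := by positivity
    linarith
  have ht := tail_tendsto h hq0 hq1
  rw [Metric.tendsto_atTop] at ht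
  obtain ⟨X, hX⟩ := ht (ε / 4) (by positivity)
  refine ⟨max X h, fun x hx => ?_⟩
  have hxX : X ≤ x := (le_max_left _ _).trans hx
  have hxh : h ≤ x := (le_max_right _ _).trans hx
  have h1 := hX x hxX
  rw [Real.dist_eq, sub_zero] at h1
  rw [Real.dist_eq, sub_zero]
  have h2 := abs_diff_le h hη hη1 hq hq0 hq1 hxh
  have h3 := le_abs_self (∑' J : ℕ, (if x - h < J * Real.log 2 then 6 * q ^ (J + 1) else 0))
  have h4 : 2 * η * NN h x ≤ 2 * η * C := mul_le_mul_of_nonneg_left (hC x) (by positivity)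
  nlinarith

end H62r
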