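import Pool.Agent.Lib.H62r.RL2

/-!
The renewal limit: `NN h x → 2 h / log (4/3)`.
-/

namespace H62r

open Filter Topology

lemma WI_shift (h x s c : ℝ) : WI h x (s + c) = WI h (x - c) s := by
  unfold WI
  congr 1
  apply propext
  constructor
  · rintro ⟨h1, h2⟩; exact ⟨by linarith, by linarith⟩
  · rintro ⟨h1, h2⟩; exact ⟨by linarith, by linarith⟩

lemma NN_harm (h x : ℝ) : NN h x =
    (NN h (x - Real.log 2) + NN h (x - (Real.log 2 - Real.log 3))) / 2 ∨
    (x = h ∧ False) ∨ WI h x 0 = 1 := by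
  by_cases hw : WI h x 0 = 1
  · exact Or.inr (Or.inr hw)
  · left
    have h0 : WI h x 0 = 0 := by
      unfold WI at hw ⊢
      split_ifs at hw ⊢ with hc
      · exact absurd rfl hw
      · rfl
    unfold NN
    rw [(summable_visits h x).tsum_eq_zero_add, EE_zero, h0, zero_add]
    have e : ∀ J, EE (J + 1) (WI h x) = (EE J (WI h (x - Real.log 2)) +
        EE J (WI h (x - (Real.log 2 - Real.log 3)))) / 2 := by
      intro J
      rw [EE_succ]
      congr 2
      · congr 1; funext s; exact WI_shift h x s _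
      · congr 1; funext s
        rw [show s + Real.log 2 - Real.log 3 = s + (Real.log 2 - Real.log 3) by ring]
        exact WI_shift h x s _
    simp_rw [e]
    rw [tsum_div_const, (summable_visits h _).tsum_add (summable_visits h _)]

lemma NN_harm' (h x : ℝ) (hx : h < x) : NN h x =
    (NN h (x - Real.log 2) + NN h (x - (Real.log 2 - Real.log 3))) / 2 := by
  rcases NN_harm h x with h1 | h1 | h1
  · exact h1
  · exact absurd h1.2 (by simp)
  · exfalso
    unfold WI at h1
    split_ifs at h1 with hc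
    · linarith [hc.1]
    · norm_num at h1

/-- the group of shifts that do not matter in the limit -/
def Inv (h c : ℝ) : Prop := Tendsto (fun x => NN h (x + c) - NN h x) atTop (𝓝 0)

lemma Inv.zero (h : ℝ) : Inv h 0 := by
  unfold Inv
  simp

lemma Inv.add {h c d : ℝ} (hc : Inv h c) (hd : Inv h d) : Inv h (c + d) := by
  unfold Inv at *
  have h1 : Tendsto (fun x : ℝ => x + c) atTop atTop := tendsto_atTop_add_const_right _ _ tendsto_id
  have h2 := (hd.comp h1).add hc
  rw [add_zero] at h2
  refine h2.congr fun x => ?_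
  simp only [Function.comp]
  rw [show x + c + d = x + (c + d) by ring]
  ring

lemma Inv.neg {h c : ℝ} (hc : Inv h c) : Inv h (-c) := by
  unfold Inv at *
  have h1 : Tendsto (fun x : ℝ => x + -c) atTop atTop := tendsto_atTop_add_const_right _ _ tendsto_id
  have h2 := (hc.comp h1).neg
  rw [neg_zero] at h2
  refine h2.congr fun x => ?_
  simp only [Function.comp]
  rw [show x + -c + c = x by ring]
  ring

lemma inv_two (h : ℝ) : Inv h (Real.log 2) := shift_two h

lemma inv_three (h : ℝ) : Inv h (Real.log 3) := by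
  -- from the harmonic equation at `x + log 2`
  have h1 : Inv h (Real.log 3 - Real.log 2) := by
    unfold Inv
    have h2 : Tendsto (fun x => -(NN h (x + -Real.log 2) - NN h x)) atTop (𝓝 0) := by
      have := (inv_two h).neg
      unfold Inv at this
      have := this.neg
      rwa [neg_zero] at this
    refine h2.congr' ?_
    filter_upwards [eventually_gt_atTop h] with x hx
    have := NN_harm' h x hx
    rw [show x + (Real.log 3 - Real.log 2) = x - (Real.log 2 - Real.log 3) by ring,
      show x + -Real.log 2 = x - Real.log 2 by ring]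
    linarith
  have := h1.add (inv_two h)
  rwa [sub_add_cancel] at this

lemma Inv.nsmul {h c : ℝ} (hc : Inv h c) (n : ℕ) : Inv h (n * c) := by
  induction n with
  | zero => simpa using Inv.zero h
  | succ n ih =>
    have := ih.add hc
    push_cast
    rwa [show ((n : ℝ) + 1) * c = n * c + c by ring]

lemma Inv.zsmul {h c : ℝ} (hc : Inv h c) (n : ℤ) : Inv h (n * c) := by
  rcases n with n | n
  · simpa using hc.nsmul n
  · have := (hc.nsmul (n + 1)).neg
    rw [Int.cast_negSucc]
    push_cast at this ⊢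
    rwa [neg_mul]

lemma irr : Irrational (Real.log 2 / Real.log 3) := by
  have h2 : 0 < Real.log 2 := Real.log_pos (by norm_num)
  have h3 : 0 < Real.log 3 := Real.log_pos (by norm_num)
  rintro ⟨q, hq⟩
  have hqpos : 0 < q := by
    have : (0 : ℝ) < (q : ℝ) := by rw [hq]; positivity
    exact_mod_cast this
  obtain ⟨a, ha⟩ : ∃ a : ℕ, (a : ℤ) = q.num := ⟨q.num.toNat, Int.toNat_of_nonneg (Rat.num_pos.mpr hqpos).le⟩
  have ha0 : 0 < a := by
    have := Rat.num_pos.mpr hqpos
    omega
  have hq' : (q : ℝ) = (a : ℝ) / (q.den : ℝ) := by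
    rw [Rat.cast_def, ← ha]; simp
  have hd : (0 : ℝ) < q.den := by exact_mod_cast q.den_pos
  rw [hq', div_eq_div_iff hd.ne' h3.ne'] at hq
  -- a * log 3 = log 2 * den
  have h4 : Real.log ((3 : ℝ) ^ a) = Real.log ((2 : ℝ) ^ q.den) := by
    rw [Real.log_pow, Real.log_pow]; linarith
  have h5 : (3 : ℝ) ^ a = (2 : ℝ) ^ q.den := Real.log_injOn_pos (by simp) (by simp) h4
  have h6 : 3 ^ a = 2 ^ q.den := by exact_mod_cast h5
  have h7 : Odd (3 ^ a) := Odd.pow (by decide)
  rw [h6] at h7
  have h8 : Even (2 ^ q.den) := by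
    rw [Nat.even_pow]
    exact ⟨by decide, q.den_pos.ne'⟩
  exact (Nat.not_odd_iff_even.mpr h8) h7

lemma exists_small {δ : ℝ} (hδ : 0 < δ) : ∃ a b : ℤ, 0 < a * Real.log 2 + b * Real.log 3 ∧
    a * Real.log 2 + b * Real.log 3 < δ := by
  have hd : Dense (AddSubgroup.closure ({Real.log 2, Real.log 3} : Set ℝ) : Set ℝ) :=
    dense_addSubgroupClosure_pair_iff.mpr irr
  obtain ⟨g, hg, hg0, hgδ⟩ := hd.exists_between hδ
  rw [SetLike.mem_coe, AddSubgroup.mem_closure_pair] at hg
  obtain ⟨a, b, rfl⟩ := hg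
  refine ⟨a, b, ?_, ?_⟩
  · simpa [zsmul_eq_mul] using hg0
  · simpa [zsmul_eq_mul] using hgδ

lemma exists_inv {δ : ℝ} (hδ : 0 < δ) : ∃ d : ℝ, 0 < d ∧ d < δ ∧ ∀ h, Inv h d := by
  obtain ⟨a, b, h0, h1⟩ := exists_small hδ
  exact ⟨_, h0, h1, fun h => ((inv_two h).zsmul a).add ((inv_three h).zsmul b)⟩

/-- additivity in the window -/
lemma NN_add {h k : ℝ} (hh : 0 ≤ h) (hk : 0 ≤ k) (x : ℝ) : NN (h + k) x = NN h x + NN k (x - h) := by
  unfold NN
  rw [← (summable_visits h x).tsum_add (summable_visits k (x - h))]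
  congr 1
  funext J
  rw [← EE_add]
  congr 1
  funext s
  unfold WI
  by_cases h1 : x - h < s
  · by_cases h2 : s ≤ x
    · rw [if_pos ⟨by linarith, h2⟩, if_pos ⟨h1, h2⟩, if_neg (by intro hc; linarith [hc.2]), add_zero]
    · rw [if_neg (fun hc => h2 hc.2), if_neg (fun hc => h2 hc.2),
        if_neg (by intro hc; linarith [hc.2]), add_zero]
  · by_cases h2 : x - h - k < s
    · rw [if_pos ⟨by linarith, by linarith⟩, if_neg (fun hc => h1 hc.1),
        if_pos ⟨h2, by linarith⟩, zero_add]
    · rw [if_neg (by intro hc; apply h2; linarith [hc.1]), if_neg (fun hc => h1 hc.1),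
        if_neg (fun hc => h2 hc.1), add_zero]

lemma NN_mono {h k : ℝ} (hh : 0 ≤ h) (hk : h ≤ k) (x : ℝ) : NN h x ≤ NN k x := by
  have := NN_add hh (sub_nonneg.mpr hk) x
  rw [add_sub_cancel] at this
  rw [this]
  have := NN_nonneg (k - h) (x - h)
  linarith

lemma NN_zero (x : ℝ) : NN 0 x = 0 := by
  have : ∀ J, EE J (WI 0 x) = 0 := by
    intro J
    unfold EE
    apply Finset.sum_eq_zero
    intro m _
    unfold WI
    rw [if_neg, mul_zero]
    intro hc; linarith [hc.1, hc.2]
  unfold NN
  simp [this]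

/-- a window made of `k` small windows -/
lemma NN_multi {d : ℝ} (hd : 0 < d) (hinv : ∀ h, Inv h d) (k : ℕ) :
    Tendsto (fun x => NN (k * d) x - k * NN d x) atTop (𝓝 0) := by
  induction k with
  | zero => simp [NN_zero]
  | succ k ih =>
    have h1 := ((hinv d).neg.nsmul k)
    have h2 : Tendsto (fun x => NN d (x + k * (-d)) - NN d x) atTop (𝓝 0) := h1
    have h3 := ih.add h2
    rw [add_zero] at h3
    refine h3.congr fun x => ?_
    have h4 := NN_add (h := k * d) (k := d) (by positivity) hd.le x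
    rw [show ((k + 1 : ℕ) : ℝ) * d = k * d + d by push_cast; ring, h4,
      show x + (k : ℝ) * -d = x - k * d by ring]
    push_cast
    ring

/-- crossing identity -/
lemma crossing (x : ℝ) (hx : 0 ≤ x) :
    NN (Real.log 2) x - NN (Real.log 3 - Real.log 2) (x + (Real.log 3 - Real.log 2)) = 2 := by
  classical
  set c : ℝ := Real.log 3 - Real.log 2 with hc
  have hc0 : 0 < c := by
    rw [hc, sub_pos]; exact Real.log_lt_log (by norm_num) (by norm_num)
  have h2 : 0 < Real.log 2 := Real.log_pos (by norm_num)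
  let F : ℕ → ℝ := fun J => EE J (fun s => if s ≤ x then 1 else 0)
  have hF0 : F 0 = 1 := by
    show EE 0 _ = 1
    rw [EE_zero, if_pos hx]
  have hstep : ∀ J, EE J (WI (Real.log 2) x) - EE J (WI c (x + c)) = 2 * (F J - F (J + 1)) := by
    intro J
    show _ = 2 * (EE J _ - EE (J + 1) _)
    rw [EE_succ, ← EE_sub]
    have e1 : (fun s => WI (Real.log 2) x s - WI c (x + c) s) = fun s =>
        2 * (if s ≤ x then (1 : ℝ) else 0) - ((if s + Real.log 2 ≤ x then (1 : ℝ) else 0) +
          (if s + Real.log 2 - Real.log 3 ≤ x then (1 : ℝ) else 0)) := by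
      funext s
      have e2 : (if s + Real.log 2 - Real.log 3 ≤ x then (1 : ℝ) else 0) = if s ≤ x + c then 1 else 0 := by
        congr 1
        apply propext
        rw [hc]
        constructor <;> intro h <;> linarith
      rw [e2]
      unfold WI
      rw [add_sub_cancel_right]
      by_cases hs1 : s + Real.log 2 ≤ x
      · rw [if_neg (by intro h; linarith [h.1]), if_neg (by intro h; linarith [h.1]),
          if_pos (by linarith), if_pos hs1, if_pos (by linarith)]
        norm_num
      · push Not at hs1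
        by_cases hs2 : s ≤ x
        · rw [if_pos ⟨by linarith, hs2⟩, if_neg (by intro h; linarith [h.1]),
            if_pos hs2, if_neg (by linarith), if_pos (by linarith)]
          norm_num
        · push Not at hs2
          by_cases hs3 : s ≤ x + c
          · rw [if_neg (by intro h; linarith [h.2]), if_pos ⟨hs2, hs3⟩,
              if_neg (by linarith), if_neg (by linarith), if_pos hs3]
            norm_num
          · rw [if_neg (by intro h; linarith [h.2]), if_neg (fun h => hs3 h.2),
              if_neg (by linarith), if_neg (by linarith), if_neg hs3]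
            norm_num
    rw [e1, EE_sub, EE_mul, EE_add]
    ring
  have hFlim : Tendsto F atTop (𝓝 0) := by
    have hub : ∀ J, F J ≤ rho ^ J * Real.exp (x / 2) := by
      intro J
      rw [← EE_exp]
      refine EE_mono J fun s => ?_
      split_ifs with hs
      · rw [← Real.exp_zero]
        exact Real.exp_le_exp.mpr (by linarith)
      · exact (Real.exp_pos _).le
    have hlb : ∀ J, 0 ≤ F J := fun J => EE_nonneg J fun s => by split_ifs <;> norm_num
    have ht : Tendsto (fun J : ℕ => rho ^ J * Real.exp (x / 2)) atTop (𝓝 0) := by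
      have := (tendsto_pow_atTop_nhds_zero_of_lt_one rho_pos.le (by linarith [rho_lt])).mul_const
        (Real.exp (x / 2))
      rwa [zero_mul] at this
    exact squeeze_zero hlb hub ht
  have hs := (summable_visits (Real.log 2) x).sub (summable_visits c (x + c))
  have e3 : NN (Real.log 2) x - NN c (x + c) =
      ∑' J, (EE J (WI (Real.log 2) x) - EE J (WI c (x + c))) := by
    unfold NN
    rw [(summable_visits (Real.log 2) x).tsum_sub (summable_visits c (x + c))]
  rw [e3]
  have h4 := hs.hasSum.tendsto_sum_nat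
  have h5 : (fun n => ∑ J ∈ Finset.range n, (EE J (WI (Real.log 2) x) - EE J (WI c (x + c)))) =
      fun n => 2 * (1 - F n) := by
    funext n
    rw [Finset.sum_congr rfl fun J _ => hstep J, ← Finset.mul_sum, Finset.sum_range_sub', hF0]
  rw [h5] at h4
  have h6 : Tendsto (fun n => 2 * (1 - F n)) atTop (𝓝 (2 * (1 - 0))) :=
    (tendsto_const_nhds.sub hFlim).const_mul 2
  have := tendsto_nhds_unique h4 h6
  rw [this]; norm_num

/-- the limit for the small window: upper and lower bounds -/
lemma small_window {d : ℝ} (hd : 0 < d) (hinv : ∀ h, Inv h d) :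
    ∀ ε > 0, ∀ᶠ x in atTop, NN d x * (Real.log (4 / 3) - 2 * d) ≤ 2 * d + ε * d ∧
      2 * d - ε * d ≤ NN d x * (Real.log (4 / 3) + 2 * d) := by
  intro ε hε
  set c : ℝ := Real.log 3 - Real.log 2 with hc
  have hc0 : 0 < c := by
    rw [hc, sub_pos]; exact Real.log_lt_log (by norm_num) (by norm_num)
  have h2 : 0 < Real.log 2 := Real.log_pos (by norm_num)
  have hlog : Real.log (4 / 3) = Real.log 2 - c := by
    rw [hc, show (4 : ℝ) / 3 = 2 * 2 / 3 by norm_num, Real.log_div (by norm_num) (by norm_num),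
      Real.log_mul (by norm_num) (by norm_num)]
    ring
  have hcinv : Inv c c := (inv_three c).add (inv_two c).neg |> fun h => by
    rwa [← sub_eq_add_neg] at h
  -- numbers of small windows
  obtain ⟨k1, hk1⟩ : ∃ k1 : ℕ, k1 = ⌊Real.log 2 / d⌋₊ := ⟨_, rfl⟩
  obtain ⟨k2, hk2⟩ : ∃ k2 : ℕ, k2 = ⌊c / d⌋₊ := ⟨_, rfl⟩
  have a1 : (k1 : ℝ) * d ≤ Real.log 2 := by
    rw [hk1, ← le_div_iff₀ hd]; exact Nat.floor_le (by positivity)
  have a2 : Real.log 2 ≤ ((k1 + 1 : ℕ) : ℝ) * d := by
    rw [hk1, ← div_le_iff₀ hd]; push_cast; exact (Nat.lt_floor_add_one _).le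
  have b1 : (k2 : ℝ) * d ≤ c := by
    rw [hk2, ← le_div_iff₀ hd]; exact Nat.floor_le (by positivity)
  have b2 : c ≤ ((k2 + 1 : ℕ) : ℝ) * d := by
    rw [hk2, ← div_le_iff₀ hd]; push_cast; exact (Nat.lt_floor_add_one _).le
  have t1 := NN_multi hd hinv k1
  have t2 := NN_multi hd hinv (k1 + 1)
  have t3 := NN_multi hd hinv k2
  have t4 := NN_multi hd hinv (k2 + 1)
  have hε8 : 0 < ε / 4 := by positivity
  rw [Metric.tendsto_nhds] at t1 t2 t3 t4
  unfold Inv at hcinv
  rw [Metric.tendsto_nhds] at hcinv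
  filter_upwards [t1 (ε / 4) hε8, t2 (ε / 4) hε8, t3 (ε / 4) hε8, t4 (ε / 4) hε8,
    hcinv (ε / 4) hε8, eventually_ge_atTop 0] with x e1 e2 e3 e4 e5 e0
  rw [Real.dist_eq, sub_zero, abs_lt] at e1 e2 e3 e4 e5
  have cr := crossing x e0
  rw [← hc] at cr
  have m1 := NN_mono (by positivity) a1 x
  have m2 := NN_mono h2.le a2 x
  have m3 := NN_mono (by positivity) b1 x
  have m4 := NN_mono hc0.le b2 x
  have hn := NN_nonneg d x
  push_cast at *
  rw [hlog]
  constructor
  · -- upper: (k1 - k2 - 1) NN d ≤ 2 + ε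
    have f1 : ((k1 : ℝ) - (k2 + 1)) * NN d x ≤ 2 + ε := by
      nlinarith [e1.1, e4.2, e5.2]
    have f2 : Real.log 2 - c - 2 * d ≤ ((k1 : ℝ) - (k2 + 1)) * d := by nlinarith
    calc NN d x * (Real.log 2 - c - 2 * d) ≤ NN d x * (((k1 : ℝ) - (k2 + 1)) * d) :=
          mul_le_mul_of_nonneg_left f2 hn
      _ = (((k1 : ℝ) - (k2 + 1)) * NN d x) * d := by ring
      _ ≤ (2 + ε) * d := mul_le_mul_of_nonneg_right f1 hd.le
      _ = 2 * d + ε * d := by ring
  · have f1 : 2 - ε ≤ ((k1 : ℝ) + 1 - k2) * NN d x := by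
      nlinarith [e2.2, e3.1, e5.1]
    have f2 : ((k1 : ℝ) + 1 - k2) * d ≤ Real.log 2 - c + 2 * d := by nlinarith
    calc 2 * d - ε * d = (2 - ε) * d := by ring
      _ ≤ (((k1 : ℝ) + 1 - k2) * NN d x) * d := mul_le_mul_of_nonneg_right f1 hd.le
      _ = NN d x * (((k1 : ℝ) + 1 - k2) * d) := by ring
      _ ≤ NN d x * (Real.log 2 - c + 2 * d) := mul_le_mul_of_nonneg_left f2 hn

end H62r
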