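import Pool.Agent.Lib.H62r.RL3

/-!
The renewal limit.
-/

namespace H62r

open Filter Topology

lemma logpos : 0 < Real.log (4 / 3) := Real.log_pos (by norm_num)

theorem renewal {h : ℝ} (hh : 0 ≤ h) : Tendsto (NN h) atTop (𝓝 (2 * h / Real.log (4 / 3))) := by
  have hL := logpos
  set L : ℝ := Real.log (4 / 3) with hLdef
  rw [Metric.tendsto_nhds]
  intro ε hε
  have hf : ContinuousAt (fun d : ℝ => (h + d) * (2 + d) / (L - 2 * d) + d) 0 := by
    apply ContinuousAt.add _ continuousAt_id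
    apply ContinuousAt.div
    · fun_prop
    · fun_prop
    · simp only [mul_zero, sub_zero]; exact hL.ne'
  have hg : ContinuousAt (fun d : ℝ => (h - d) * (2 - d) / (L + 2 * d) - d) 0 := by
    apply ContinuousAt.sub _ continuousAt_id
    apply ContinuousAt.div
    · fun_prop
    · fun_prop
    · simp only [mul_zero, add_zero]; exact hL.ne'
  rw [Metric.continuousAt_iff] at hf hg
  obtain ⟨δ1, hδ1, hf⟩ := hf ε hε
  obtain ⟨δ2, hδ2, hg⟩ := hg ε hε
  obtain ⟨d, hd0, hdδ, hinv⟩ := exists_inv (δ := min (min δ1 δ2) (min (L / 4) 1))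
    (lt_min (lt_min hδ1 hδ2) (lt_min (by positivity) (by norm_num)))
  have hd1 : d < δ1 := hdδ.trans_le ((min_le_left _ _).trans (min_le_left _ _))
  have hd2 : d < δ2 := hdδ.trans_le ((min_le_left _ _).trans (min_le_right _ _))
  have hd3 : d < L / 4 := hdδ.trans_le ((min_le_right _ _).trans (min_le_left _ _))
  have hd4 : d < 1 := hdδ.trans_le ((min_le_right _ _).trans (min_le_right _ _))
  have hf' := hf (x := d) (by rw [Real.dist_eq, sub_zero, abs_of_pos hd0]; exact hd1)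
  have hg' := hg (x := d) (by rw [Real.dist_eq, sub_zero, abs_of_pos hd0]; exact hd2)
  simp only [add_zero, mul_zero, sub_zero] at hf' hg'
  rw [Real.dist_eq, abs_lt] at hf' hg'
  obtain ⟨k, hk⟩ : ∃ k : ℕ, k = ⌊h / d⌋₊ := ⟨_, rfl⟩
  have a1 : (k : ℝ) * d ≤ h := by
    rw [hk, ← le_div_iff₀ hd0]; exact Nat.floor_le (by positivity)
  have a2 : h ≤ ((k + 1 : ℕ) : ℝ) * d := by
    rw [hk, ← div_le_iff₀ hd0]; push_cast; exact (Nat.lt_floor_add_one _).le
  have t1 := NN_multi hd0 hinv k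
  have t2 := NN_multi hd0 hinv (k + 1)
  rw [Metric.tendsto_nhds] at t1 t2
  filter_upwards [t1 d hd0, t2 d hd0, small_window hd0 hinv d hd0] with x e1 e2 e3
  rw [Real.dist_eq, sub_zero, abs_lt] at e1 e2
  have m1 := NN_mono (by positivity) a1 x
  have m2 := NN_mono hh a2 x
  have hn := NN_nonneg d x
  obtain ⟨e3, e4⟩ := e3
  rw [← hLdef] at e3 e4
  have p1 : 0 < L - 2 * d := by linarith
  have p2 : 0 < L + 2 * d := by linarith
  have u1 : NN d x ≤ (2 + d) * d / (L - 2 * d) := by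
    rw [le_div_iff₀ p1]; linarith
  have u2 : (2 - d) * d / (L + 2 * d) ≤ NN d x := by
    rw [div_le_iff₀ p2]; linarith
  have hk0 : (0 : ℝ) ≤ k := Nat.cast_nonneg k
  push_cast at *
  have U : NN h x ≤ (h + d) * (2 + d) / (L - 2 * d) + d := by
    have g1 : ((k : ℝ) + 1) * NN d x ≤ ((k : ℝ) + 1) * ((2 + d) * d / (L - 2 * d)) :=
      mul_le_mul_of_nonneg_left u1 (by linarith)
    have g2 : ((k : ℝ) + 1) * ((2 + d) * d / (L - 2 * d)) =
        (((k : ℝ) + 1) * d) * ((2 + d) / (L - 2 * d)) := by ring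
    have g3 : (((k : ℝ) + 1) * d) * ((2 + d) / (L - 2 * d)) ≤ (h + d) * ((2 + d) / (L - 2 * d)) := by
      apply mul_le_mul_of_nonneg_right (by linarith)
      positivity
    have g4 : (h + d) * ((2 + d) / (L - 2 * d)) = (h + d) * (2 + d) / (L - 2 * d) := by ring
    linarith [e2.2]
  have Lo : (h - d) * (2 - d) / (L + 2 * d) - d ≤ NN h x := by
    have g1 : (k : ℝ) * ((2 - d) * d / (L + 2 * d)) ≤ (k : ℝ) * NN d x :=
      mul_le_mul_of_nonneg_left u2 hk0
    have g2 : (k : ℝ) * ((2 - d) * d / (L + 2 * d)) = ((k : ℝ) * d) * ((2 - d) / (L + 2 * d)) := by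
      ring
    have g3 : (h - d) * ((2 - d) / (L + 2 * d)) ≤ ((k : ℝ) * d) * ((2 - d) / (L + 2 * d)) := by
      apply mul_le_mul_of_nonneg_right (by linarith)
      apply div_nonneg (by linarith) p2.le
    have g4 : (h - d) * ((2 - d) / (L + 2 * d)) = (h - d) * (2 - d) / (L + 2 * d) := by ring
    linarith [e1.1]
  have hc : 2 * h / L = h * 2 / L := by ring
  rw [Real.dist_eq, abs_lt, hc]
  constructor
  · linarith [hg'.1]
  · linarith [hf'.2]

end H62r
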