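import Pool.Agent.Lib.H62r.RL4
import Pool.Agent.Lib.H62y.SkLast

set_option autoImplicit false

/-!
From the limit of the expected visits to words of truncated letters.
-/

namespace H62r

open Filter Topology Finset H62w H62y

lemma bw_exp (J : ℕ) (a : ℝ) : ∑ k ∈ range (J + 1), bw J k * Real.exp (a * k) ≤
    Real.exp (J * (a / 2 + a ^ 2 / 8)) := by
  have h1 := bw_mgf J (a / 2)
  have h2 : ∑ k ∈ range (J + 1), bw J k * Real.exp (a * k) =
      Real.exp (a / 2 * J) * ∑ k ∈ range (J + 1), bw J k * Real.exp (a / 2 * (2 * (k : ℝ) - J)) := by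
    rw [mul_sum]
    refine sum_congr rfl fun k _ => ?_
    rw [mul_left_comm, ← Real.exp_add]
    congr 2
    ring
  rw [h2, h1]
  have h3 : Real.cosh (a / 2) ^ J ≤ Real.exp ((a / 2) ^ 2 / 2) ^ J :=
    pow_le_pow_left₀ (Real.cosh_pos _).le (Real.cosh_le_exp_half_sq _) J
  calc Real.exp (a / 2 * J) * Real.cosh (a / 2) ^ J ≤
      Real.exp (a / 2 * J) * Real.exp ((a / 2) ^ 2 / 2) ^ J :=
        mul_le_mul_of_nonneg_left h3 (Real.exp_pos _).le
    _ = Real.exp (J * (a / 2 + a ^ 2 / 8)) := by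
        rw [← Real.exp_nat_mul, ← Real.exp_add]
        congr 1
        ring

/-! ### law of the sum of the letters -/

lemma PL_zero (M J : ℕ) : PL M 0 J = if J = 0 then 1 else 0 := by
  unfold PL
  rw [words, sum_filter, sum_singleton]
  simp only [List.sum_nil, pw, List.map_nil, List.prod_nil]
  by_cases h : J = 0
  · subst h; simp
  · rw [if_neg (Ne.symm h), if_neg h]

lemma PL_succ (M m J : ℕ) (hJ : J < M) :
    PL M (m + 1) J = ∑ i ∈ range J, (1 / 2 : ℝ) ^ (i + 1) * PL M m (J - 1 - i) := by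
  unfold PL
  rw [sum_filter, Src.sum_words_succ]
  have h1 : ∀ a ∈ Icc 1 M, (∑ l ∈ words M m, if (a :: l).sum = J then pw M (a :: l) else 0) =
      if a ≤ J then (1 / 2 : ℝ) ^ a * ∑ l ∈ (words M m).filter (fun l => l.sum = J - a), pw M l
        else 0 := by
    intro a ha
    rw [mem_Icc] at ha
    split_ifs with haJ
    · rw [sum_filter, mul_sum]
      refine sum_congr rfl fun l _ => ?_
      rw [List.sum_cons, Src.pw_cons]
      have hpa : pa M a = (1 / 2 : ℝ) ^ a := by
        unfold pa; rw [if_pos (by omega)]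
      rw [hpa]
      by_cases hl : l.sum = J - a
      · rw [if_pos (by omega), if_pos hl]
      · rw [if_neg (by omega), if_neg hl, mul_zero]
    · apply sum_eq_zero
      intro l _
      rw [List.sum_cons, if_neg (by omega)]
  rw [sum_congr rfl h1, ← sum_filter]
  have h2 : (Icc 1 M).filter (fun a => a ≤ J) = (range J).image (fun i => i + 1) := by
    ext a
    simp only [mem_filter, mem_Icc, mem_image, mem_range]
    constructor
    · rintro ⟨⟨h1, h2⟩, h3⟩
      exact ⟨a - 1, by omega, by omega⟩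
    · rintro ⟨i, hi, rfl⟩
      omega
  rw [h2, sum_image (by intro a _ b _ h; exact Nat.succ_injective h)]
  refine sum_congr rfl fun i _ => ?_
  rw [show J - (i + 1) = J - 1 - i by omega]

lemma PL_rec (M m J : ℕ) (hJ : J + 1 < M) :
    PL M (m + 1) (J + 1) = (PL M m J + PL M (m + 1) J) / 2 := by
  rw [PL_succ M m (J + 1) hJ, PL_succ M m J (by omega), sum_range_succ']
  rw [show J + 1 - 1 - 0 = J by omega]
  have : ∀ i ∈ range J, (1 / 2 : ℝ) ^ (i + 1 + 1) * PL M m (J + 1 - 1 - (i + 1)) =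
      (1 / 2) * ((1 / 2 : ℝ) ^ (i + 1) * PL M m (J - 1 - i)) := by
    intro i _
    rw [show J + 1 - 1 - (i + 1) = J - 1 - i by omega, pow_succ]
    ring
  rw [sum_congr rfl this, ← mul_sum]
  ring

lemma PL_at_zero (M m : ℕ) (hM : 1 ≤ M) : PL M m 0 = if m = 0 then 1 else 0 := by
  rcases m with _ | m
  · rw [PL_zero]
  · rw [PL_succ M m 0 (by omega)]; simp

lemma PL_eq_bw (M : ℕ) : ∀ J m : ℕ, J + 1 < M → PL M (m + 1) (J + 1) = bw J m / 2
  | 0, m, h => by
    rw [PL_rec M m 0 h, PL_at_zero M m (by omega), PL_at_zero M (m + 1) (by omega)]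
    unfold bw
    rcases m with _ | m
    · simp
    · simp
  | J + 1, m, h => by
    rw [PL_rec M m (J + 1) h, PL_eq_bw M J m (by omega)]
    rcases m with _ | m
    · rw [PL_zero]
      unfold bw
      simp [pow_succ]
      ring
    · rw [PL_eq_bw M J m (by omega)]
      unfold bw
      rw [Nat.choose_succ_succ, pow_succ]
      push_cast
      ring

/-! ### truncation -/

/-- the truncated sum -/
noncomputable def TS (h x : ℝ) (m2 M : ℕ) : ℝ :=
  ∑ k ∈ range m2, ∑ J ∈ range (M - 1), bw J k * WI h (x + (Real.log 3 - Real.log 2)) (ps J k)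

noncomputable def qq : ℝ := Real.exp (((1 / 25) * Real.log 3 + 104 / 10000) / 2 +
  ((1 / 25) * Real.log 3 + 104 / 10000) ^ 2 / 8 - (1 / 25) * Real.log 2)

lemma qq_pos : 0 < qq := Real.exp_pos _

lemma qq_lt : qq < 1 := by
  unfold qq
  rw [Real.exp_lt_one_iff]
  have x1 := Real.log_two_gt_d9
  have y2 := log3_lt
  have y1 := log3_gt
  have h : ((1 / 25) * Real.log 3 + 104 / 10000) ^ 2 ≤ (5436 / 100000) ^ 2 := by
    apply pow_le_pow_left₀ (by linarith)
    linarith
  linarith

lemma trunc_J {h x : ℝ} {m2 M J : ℕ} (hm2 : 1 ≤ m2) (hM : 2 * m2 ≤ M) (hx : x ≤ (m2 : ℝ) / 4) :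
    EE J (WI h (x + (Real.log 3 - Real.log 2))) ≤
      (if J < M - 1 then ∑ k ∈ range m2, bw J k * WI h (x + (Real.log 3 - Real.log 2)) (ps J k)
        else 0) + 2 * Real.exp (-((m2 : ℝ) / 2500)) * qq ^ J := by
  have x1 := Real.log_two_gt_d9
  have x2 := Real.log_two_lt_d9
  have y1 := log3_gt
  have y2 := log3_lt
  set x' : ℝ := x + (Real.log 3 - Real.log 2) with hx'
  have hpt : ∀ k ∈ range (J + 1), bw J k * WI h x' (ps J k) ≤
      (if k < m2 ∧ J < M - 1 then bw J k * WI h x' (ps J k) else 0) +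
      2 * Real.exp (-((m2 : ℝ) / 2500)) * Real.exp (-((1 / 25) * Real.log 2 * J)) *
        (bw J k * Real.exp (((1 / 25) * Real.log 3 + 104 / 10000) * k)) := by
    intro k _
    have hb := bw_nonneg J k
    have hpos : 0 ≤ 2 * Real.exp (-((m2 : ℝ) / 2500)) * Real.exp (-((1 / 25) * Real.log 2 * J)) *
        (bw J k * Real.exp (((1 / 25) * Real.log 3 + 104 / 10000) * k)) := by positivity
    by_cases hw : x' - h < ps J k ∧ ps J k ≤ x'
    · by_cases hk : k < m2
      · by_cases hJ : J < M - 1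
        · rw [if_pos ⟨hk, hJ⟩]; linarith
        · exfalso
          have hJ' : 2 * m2 - 1 ≤ J := by omega
          have hJr : (2 * (m2 : ℝ) - 1) ≤ J := by
            have : ((2 * m2 - 1 : ℕ) : ℝ) ≤ J := by exact_mod_cast hJ'
            rw [Nat.cast_sub (by omega)] at this
            push_cast at this
            exact this
          have hkr : (k : ℝ) ≤ m2 - 1 := by
            have : ((k + 1 : ℕ) : ℝ) ≤ m2 := by exact_mod_cast hk
            push_cast at this
            linarith
          have h2 := hw.2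
          unfold ps at h2
          have hm : (1 : ℝ) ≤ m2 := by exact_mod_cast hm2
          have g1 : (2 * (m2 : ℝ) - 1) * Real.log 2 ≤ J * Real.log 2 :=
            mul_le_mul_of_nonneg_right hJr (by linarith)
          have g2 : (k : ℝ) * Real.log 3 ≤ (m2 - 1) * Real.log 3 :=
            mul_le_mul_of_nonneg_right hkr (by linarith)
          have g3 : (m2 : ℝ) * (1 / 4) < m2 * (2 * Real.log 2 - Real.log 3) :=
            mul_lt_mul_of_pos_left (by linarith) (by linarith)
          rw [hx'] at h2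
          nlinarith
      · push Not at hk
        have e1 : WI h x' (ps J k) = 1 := by unfold WI; rw [if_pos hw]
        rw [e1, mul_one, if_neg (fun hc => absurd hc.1 (not_lt.mpr hk)), zero_add]
        have e2 : 2 * Real.exp (-((m2 : ℝ) / 2500)) * Real.exp (-((1 / 25) * Real.log 2 * J)) *
            (bw J k * Real.exp (((1 / 25) * Real.log 3 + 104 / 10000) * k)) =
            bw J k * (2 * Real.exp (-((m2 : ℝ) / 2500) + -((1 / 25) * Real.log 2 * J) +
              ((1 / 25) * Real.log 3 + 104 / 10000) * k)) := by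
          rw [Real.exp_add, Real.exp_add]; ring
        rw [e2]
        apply le_mul_of_one_le_right hb
        have e3 : (2 : ℝ) = Real.exp (Real.log 2) := (Real.exp_log (by norm_num)).symm
        nth_rewrite 1 [e3]
        rw [← Real.exp_add]
        apply Real.one_le_exp
        have h2 := hw.2
        unfold ps at h2
        rw [hx'] at h2
        have hkr : (m2 : ℝ) ≤ k := by exact_mod_cast hk
        linarith
    · have e1 : WI h x' (ps J k) = 0 := by unfold WI; rw [if_neg hw]
      rw [e1, mul_zero]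
      have : 0 ≤ (if k < m2 ∧ J < M - 1 then (0 : ℝ) else 0) := by split_ifs <;> norm_num
      linarith
  unfold EE
  refine (sum_le_sum hpt).trans ?_
  rw [sum_add_distrib, ← mul_sum]
  have hfirst : ∑ k ∈ range (J + 1), (if k < m2 ∧ J < M - 1 then bw J k * WI h x' (ps J k) else 0) ≤
      (if J < M - 1 then ∑ k ∈ range m2, bw J k * WI h x' (ps J k) else 0) := by
    split_ifs with hJ
    · have : ∑ k ∈ range (J + 1), (if k < m2 ∧ J < M - 1 then bw J k * WI h x' (ps J k) else 0) =
          ∑ k ∈ (range (J + 1)).filter (fun k => k < m2), bw J k * WI h x' (ps J k) := by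
        rw [sum_filter]
        refine sum_congr rfl fun k _ => ?_
        by_cases hk : k < m2
        · rw [if_pos ⟨hk, hJ⟩, if_pos hk]
        · rw [if_neg (fun hc => hk hc.1), if_neg hk]
      rw [this]
      apply sum_le_sum_of_subset_of_nonneg
      · intro k hk
        rw [mem_filter] at hk
        exact mem_range.mpr hk.2
      · intro k _ _
        exact mul_nonneg (bw_nonneg J k) (WI_nonneg _ _ _)
    · apply le_of_eq
      apply sum_eq_zero
      intro k _
      rw [if_neg (fun hc => hJ hc.2)]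
  have hsecond : 2 * Real.exp (-((m2 : ℝ) / 2500)) * Real.exp (-((1 / 25) * Real.log 2 * J)) *
      ∑ k ∈ range (J + 1), (bw J k * Real.exp (((1 / 25) * Real.log 3 + 104 / 10000) * k)) ≤
      2 * Real.exp (-((m2 : ℝ) / 2500)) * qq ^ J := by
    have h3 := bw_exp J ((1 / 25) * Real.log 3 + 104 / 10000)
    have h4 : Real.exp (-((1 / 25) * Real.log 2 * J)) *
        Real.exp (J * (((1 / 25) * Real.log 3 + 104 / 10000) / 2 +
          ((1 / 25) * Real.log 3 + 104 / 10000) ^ 2 / 8)) = qq ^ J := by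
      unfold qq
      rw [← Real.exp_nat_mul, ← Real.exp_add]
      congr 1
      ring
    rw [← h4, ← mul_assoc]
    exact mul_le_mul_of_nonneg_left h3 (by positivity)
  linarith

lemma NN_le_TS {h x : ℝ} {m2 M : ℕ} (hm2 : 1 ≤ m2) (hM : 2 * m2 ≤ M) (hx : x ≤ (m2 : ℝ) / 4) :
    NN h (x + (Real.log 3 - Real.log 2)) ≤ TS h x m2 M +
      2 * Real.exp (-((m2 : ℝ) / 2500)) * (1 - qq)⁻¹ := by
  have hq0 := qq_pos
  have hq1 := qq_lt
  have s0 := summable_visits h (x + (Real.log 3 - Real.log 2))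
  have sg := (summable_geometric_of_lt_one hq0.le hq1).mul_left (2 * Real.exp (-((m2 : ℝ) / 2500)))
  have sf : Summable fun J : ℕ => (if J < M - 1 then
      ∑ k ∈ range m2, bw J k * WI h (x + (Real.log 3 - Real.log 2)) (ps J k) else 0) := by
    apply summable_of_ne_finset_zero (s := range (M - 1))
    intro J hJ
    rw [mem_range] at hJ
    rw [if_neg hJ]
  have h1 := s0.tsum_le_tsum (fun J => trunc_J (h := h) (x := x) (J := J) hm2 hM hx) (sf.add sg)
  rw [sf.tsum_add sg, tsum_mul_left, tsum_geometric_of_lt_one hq0.le hq1] at h1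
  have h2 : ∑' J : ℕ, (if J < M - 1 then
      ∑ k ∈ range m2, bw J k * WI h (x + (Real.log 3 - Real.log 2)) (ps J k) else 0) =
      TS h x m2 M := by
    rw [tsum_eq_sum (s := range (M - 1))]
    · unfold TS
      rw [sum_comm]
      refine sum_congr rfl fun J hJ => ?_
      rw [if_pos (mem_range.mp hJ)]
    · intro J hJ
      rw [mem_range] at hJ
      rw [if_neg hJ]
  rw [h2] at h1
  exact h1

/-- words in the window -/
lemma TS_le_words {v Θ θ : ℝ} (hv : 0 < v) (hΘ : 0 < Θ) (hθ : 0 < θ) (m2 M : ℕ) :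
    TS (Real.log (1 / θ)) (Real.log (Θ / v)) m2 M / 2 ≤
      ∑ m ∈ range (m2 + 1), ∑ l ∈ (words M m).filter
      (fun l => θ * Θ * 3 ^ m < v * 2 ^ l.sum ∧ v * 2 ^ l.sum ≤ Θ * 3 ^ m), pw M l := by
  rw [sum_range_succ']
  have h0 : 0 ≤ ∑ l ∈ (words M 0).filter
      (fun l => θ * Θ * 3 ^ 0 < v * 2 ^ l.sum ∧ v * 2 ^ l.sum ≤ Θ * 3 ^ 0), pw M l :=
    sum_nonneg fun l _ => (Src.pw_pos M l).le
  refine le_trans ?_ (le_add_of_nonneg_right h0)
  unfold TS
  rw [sum_div]
  refine sum_le_sum fun k _ => ?_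
  -- group by the sum
  have h1 : ∑ J ∈ range (M - 1), (bw J k * WI (Real.log (1 / θ))
      (Real.log (Θ / v) + (Real.log 3 - Real.log 2)) (ps J k)) / 2 ≤
      ∑ J ∈ range (M - 1), ∑ l ∈ ((words M (k + 1)).filter
      (fun l => θ * Θ * 3 ^ (k + 1) < v * 2 ^ l.sum ∧ v * 2 ^ l.sum ≤ Θ * 3 ^ (k + 1))).filter
        (fun l => l.sum = J + 1), pw M l := by
    refine sum_le_sum fun J hJ => ?_
    rw [mem_range] at hJ
    by_cases hw : Real.log (Θ / v) + (Real.log 3 - Real.log 2) - Real.log (1 / θ) < ps J k ∧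
        ps J k ≤ Real.log (Θ / v) + (Real.log 3 - Real.log 2)
    · have e1 : WI (Real.log (1 / θ)) (Real.log (Θ / v) + (Real.log 3 - Real.log 2)) (ps J k) = 1 := by
        unfold WI; rw [if_pos hw]
      rw [e1, mul_one, ← PL_eq_bw M J k (by omega)]
      unfold PL
      apply sum_le_sum_of_subset_of_nonneg
      · intro l hl
        rw [mem_filter] at hl
        rw [mem_filter, mem_filter]
        refine ⟨⟨hl.1, ?_⟩, hl.2⟩
        rw [hl.2]
        rw [Real.log_div hΘ.ne' hv.ne', one_div, Real.log_inv] at hw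
        unfold ps at hw
        constructor
        · rw [← Real.log_lt_log_iff (by positivity) (by positivity), Real.log_mul (by positivity)
            (by positivity), Real.log_mul hθ.ne' hΘ.ne', Real.log_mul hv.ne' (by positivity),
            Real.log_pow, Real.log_pow]
          push_cast
          linarith [hw.1]
        · rw [← Real.log_le_log_iff (by positivity) (by positivity), Real.log_mul hΘ.ne'
            (by positivity), Real.log_mul hv.ne' (by positivity),
            Real.log_pow, Real.log_pow]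
          push_cast
          linarith [hw.2]
      · intro l _ _
        exact (Src.pw_pos M l).le
    · have e1 : WI (Real.log (1 / θ)) (Real.log (Θ / v) + (Real.log 3 - Real.log 2)) (ps J k) = 0 := by
        unfold WI; rw [if_neg hw]
      rw [e1, mul_zero, zero_div]
      exact sum_nonneg fun l _ => (Src.pw_pos M l).le
  rw [← sum_div] at h1
  refine h1.trans ?_
  set A := (words M (k + 1)).filter
      (fun l => θ * Θ * 3 ^ (k + 1) < v * 2 ^ l.sum ∧ v * 2 ^ l.sum ≤ Θ * 3 ^ (k + 1)) with hA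
  classical
  have h2 : ∑ J ∈ range (M - 1), ∑ l ∈ A.filter (fun l => l.sum = J + 1), pw M l =
      ∑ l ∈ A.filter (fun l => 1 ≤ l.sum ∧ l.sum ≤ M - 1), pw M l := by
    rw [← sum_biUnion]
    · refine sum_congr ?_ fun _ _ => rfl
      ext l
      simp only [mem_biUnion, mem_filter]
      constructor
      · rintro ⟨J, hJ, h1, h2⟩
        rw [mem_range] at hJ
        exact ⟨h1, by omega, by omega⟩
      · rintro ⟨h1, h2, h3⟩
        exact ⟨l.sum - 1, mem_range.2 (by omega), h1, by omega⟩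
    · intro J1 _ J2 _ hne
      rw [Function.onFun, disjoint_left]
      intro l hl1 hl2
      rw [mem_filter] at hl1 hl2
      exact hne (by omega)
  rw [h2]
  apply sum_le_sum_of_subset_of_nonneg
  · intro l hl
    simp only [mem_filter] at hl
    exact hl.1
  · intro l _ _
    exact (Src.pw_pos M l).le

/-- sharp first passage -/
theorem first_passage_sharp {θ δ : ℝ} (hθ0 : 0 < θ) (hθ1 : θ < 1) (hδ : 0 < δ) :
    ∃ m1 : ℕ, ∃ X1 : ℝ, ∀ m2 : ℕ, m1 ≤ m2 → ∀ M : ℕ, 2 * m2 ≤ M → ∀ v Θ : ℝ, 0 < v → 0 < Θ →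
    X1 ≤ Real.log (Θ / v) → Real.log (Θ / v) ≤ m2 / 4 →
    Real.log (1 / θ) / Real.log (4 / 3) - δ ≤ ∑ m ∈ range (m2 + 1), ∑ l ∈ (words M m).filter
      (fun l => θ * Θ * 3 ^ m < v * 2 ^ l.sum ∧ v * 2 ^ l.sum ≤ Θ * 3 ^ m), pw M l := by
  have hh : 0 ≤ Real.log (1 / θ) := Real.log_nonneg (by rw [le_div_iff₀ hθ0]; linarith)
  have h1 := renewal hh
  rw [Metric.tendsto_atTop] at h1
  obtain ⟨X, hX⟩ := h1 δ hδ
  have hq0 := qq_pos
  have hq1 := qq_lt
  have h2 : Tendsto (fun m2 : ℕ => 2 * Real.exp (-((m2 : ℝ) / 2500)) * (1 - qq)⁻¹) atTop (𝓝 0) := by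
    have g1 : Tendsto (fun m2 : ℕ => (m2 : ℝ) / 2500) atTop atTop :=
      tendsto_natCast_atTop_atTop.atTop_div_const (by norm_num)
    have g2 := (Real.tendsto_exp_neg_atTop_nhds_zero.comp g1)
    have g3 := (g2.const_mul 2).mul_const ((1 - qq)⁻¹)
    rw [mul_zero, zero_mul] at g3
    exact g3
  rw [Metric.tendsto_atTop] at h2
  obtain ⟨m0, hm0⟩ := h2 δ hδ
  refine ⟨max m0 1, X, fun m2 hm2 M hM v Θ hv hΘ hx1 hx2 => ?_⟩
  have a1 := hm0 m2 ((le_max_left _ _).trans hm2)
  have a2 := NN_le_TS (h := Real.log (1 / θ)) (x := Real.log (Θ / v)) (m2 := m2) (M := M)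
    ((le_max_right _ _).trans hm2) hM hx2
  have a3 := TS_le_words hv hΘ hθ0 m2 M
  have hc0 : 0 < Real.log 3 - Real.log 2 := by
    rw [sub_pos]; exact Real.log_lt_log (by norm_num) (by norm_num)
  have a4 := hX (Real.log (Θ / v) + (Real.log 3 - Real.log 2)) (by linarith)
  rw [Real.dist_eq, abs_lt] at a4
  rw [Real.dist_eq, sub_zero, abs_lt] at a1
  have e : 2 * Real.log (1 / θ) / Real.log (4 / 3) = 2 * (Real.log (1 / θ) / Real.log (4 / 3)) := by
    ring
  rw [e] at a4
  linarith [a4.1, a1.2]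

end H62r
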