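import Pool.Agent.Lib.H62r.LastSharp
import Pool.Agent.Lib.H78P.SkH

set_option autoImplicit false

/-!
Last stage with a window `(θ Θ, Θ]` and the sharp constant.
-/

open Finset
namespace H62r
open H62w H62y

theorem last_sharp {N : ℕ} (hN : 100 ≤ N) {C B D κ θ δ : ℝ} (_hC : 0 ≤ C) (_hB : 0 ≤ B) (hD : 0 ≤ D)
    (hκ : 0 < κ) (hθ0 : 1 / 2 ≤ θ) (hθ1 : θ < 1) (hδ : 0 < δ) (T0 : ℕ) :
    ∃ L1 : ℕ, ∀ L M t y : ℕ, L1 ≤ L → 2 * L ≤ M → t ≤ T0 → ∀ G : Finset (List ℕ),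
      H62y.Stage N M t L y C B D κ G → ∀ Θ : ℝ,
      Real.log (4 / 3) * L + 11 / 10 * L / N ≤ Real.log Θ →
      Real.log Θ ≤ Real.log (4 / 3) * L + 19 / 10 * L / N → 0 < Θ →
      ∃ G' : Finset (List ℕ), (∀ l ∈ G', ∃ l1 ∈ G, ∃ l2 : List ℕ, l = l1 ++ l2 ∧ 8 * l2.length ≤ L ∧
        (∀ a ∈ l2, 1 ≤ a) ∧ va l y ∧ θ * Θ * 3 ^ l.length < (2 : ℝ) ^ l.sum ∧
        (2 : ℝ) ^ l.sum ≤ Θ * 3 ^ l.length) ∧
        κ * (Real.log (1 / θ) / Real.log (4 / 3) - δ) ≤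
          ∑ l ∈ G', (3 : ℝ) ^ l.length / (2 : ℝ) ^ l.sum :=
  last_sharp_of H78P.hT_all hN hD hκ (by linarith) hθ1 hδ T0

end H62r
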